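import Mathlib

/-! Part D of the Gale dimension two case: the inequality for antiperiodic words. -/

namespace KALD

open Finset

/-- increments -/
def T (m h : ℕ) : ℤ := ((m:ℤ) - 2 - h) * 2 ^ h
/-- the function whose increments are T -/
def G (m x : ℕ) : ℤ := ((m:ℤ) - x) * 2 ^ x
/-- loss weight of a turning gap -/
def W (A B : ℕ) : ℤ := max (2 ^ A + 2 ^ (B - 1)) (2 ^ (A - 1) + 2 ^ B)
/-- loss of a turning gap at level x -/
def H (m x : ℕ) : ℤ := (x:ℤ) * ((m:ℤ) - x) * W x (m - x)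
/-- extra loss of three consecutive turning gaps, outer gaps at level x -/
def OO (m x : ℕ) : ℤ := 2 ^ (max x (m - x)) + 2 ^ (m - max x (m - x) + 1)

/-- antiperiodic word with its level function -/
structure Walk (m : ℕ) (v : ℤ → Bool) (e : ℤ → ℕ) : Prop where
  anti : ∀ g, v (g + m) = !v g
  down : ∀ g, v g = true → e g = e (g + 1) + 1
  up : ∀ g, v g = false → e (g + 1) = e g + 1
  sum : ∀ g, e (g + m) + e g = m
  pos : ∀ g, 1 ≤ e g

/-- local summand -/
def f (m : ℕ) (v : ℤ → Bool) (e : ℤ → ℕ) (g : ℤ) : ℤ :=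
  3 * ((m:ℤ) - 1) * (if v g = true then T m (e (g + 1)) else T m (m - 1 - e g))
  - (if v (g - 1) ≠ v g then H m (e g) else 0)
  - (if v (g - 2) ≠ v (g - 1) ∧ v (g - 1) ≠ v g ∧ v g ≠ v (g + 1) then OO m (e (g + 1)) else 0)

lemma T_eq (m h : ℕ) : T m h = G m (h + 1) - G m h := by
  unfold T G; push_cast; ring

lemma W_comm (A B : ℕ) : W A B = W B A := by
  unfold W; rw [max_comm]; congr 1 <;> ring

lemma H_symm (m x : ℕ) (hx : x ≤ m) : H m (m - x) = H m x := by
  unfold H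
  rw [W_comm, Nat.sub_sub_self hx, Nat.cast_sub hx]
  ring

lemma OO_symm (m x : ℕ) (hx : x ≤ m) : OO m (m - x) = OO m x := by
  unfold OO
  rw [Nat.sub_sub_self hx, max_comm]

lemma W_nonneg (A B : ℕ) : 0 ≤ W A B := by
  unfold W; exact le_trans (by positivity) (le_max_left _ _)

lemma H_nonneg (m x : ℕ) (hx : x ≤ m) : 0 ≤ H m x := by
  unfold H
  have : (0:ℤ) ≤ (m:ℤ) - x := by
    have : (x:ℤ) ≤ m := by exact_mod_cast hx
    linarith
  have := W_nonneg x (m - x)
  positivity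

lemma OO_nonneg (m x : ℕ) : 0 ≤ OO m x := by unfold OO; positivity

namespace Walk

variable {m : ℕ} {v : ℤ → Bool} {e : ℤ → ℕ}

lemma le (w : Walk m v e) (g : ℤ) : e g ≤ m := by have := w.sum g; omega

lemma lt (w : Walk m v e) (g : ℤ) : e g + 1 ≤ m := by
  have := w.sum g; have := w.pos (g + m); omega

lemma f_periodic (w : Walk m v e) (g : ℤ) : f m v e (g + m) = f m v e g := by
  have h0 := w.anti g
  have h1 := w.anti (g - 1)
  have h2 := w.anti (g - 2)
  have h3 := w.anti (g + 1)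
  have s0 := w.sum g
  have s1 := w.sum (g + 1)
  unfold f
  rw [show g + (m:ℤ) - 1 = g - 1 + m by ring, show g + (m:ℤ) - 2 = g - 2 + m by ring,
    show g + (m:ℤ) + 1 = g + 1 + m by ring, h0, h1, h2, h3]
  have e0 : e (g + m) = m - e g := by omega
  have e1 : e (g + 1 + m) = m - e (g + 1) := by omega
  rw [e0, e1, H_symm m _ (w.le g), OO_symm m _ (w.le (g + 1))]
  have k1 : ((!v (g - 1)) ≠ (!v g)) ↔ (v (g - 1) ≠ v g) := by
    cases v (g - 1) <;> cases v g <;> simp
  have k2 : ((!v (g - 2)) ≠ (!v (g - 1))) ↔ (v (g - 2) ≠ v (g - 1)) := by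
    cases v (g - 1) <;> cases v (g - 2) <;> simp
  have k3 : ((!v g) ≠ (!v (g + 1))) ↔ (v g ≠ v (g + 1)) := by
    cases v (g + 1) <;> cases v g <;> simp
  simp only [k1, k2, k3]
  congr 2
  cases hv : v g
  · have := w.up g hv
    simp only [Bool.not_false, if_true, Bool.false_eq_true, if_false]
    rw [show m - e (g + 1) = m - 1 - e g by omega]
  · have := w.down g hv
    have := w.le g
    simp only [Bool.not_true, Bool.false_eq_true, if_false, if_true]
    rw [show m - 1 - (m - e g) = e (g + 1) by omega]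

end Walk

lemma sum_shift (m : ℕ) (F : ℤ → ℤ) (hF : ∀ g, F (g + m) = F g) (g : ℤ) :
    ∑ k ∈ range m, F (g + 1 + k) = ∑ k ∈ range m, F (g + k) := by
  have h1 : ∑ k ∈ range (m + 1), F (g + k) = ∑ k ∈ range m, F (g + k) + F (g + m) :=
    Finset.sum_range_succ (fun k : ℕ => F (g + k)) m
  have h2 : ∑ k ∈ range (m + 1), F (g + k) = ∑ k ∈ range m, F (g + (k + 1 : ℕ)) + F (g + (0:ℕ)) :=
    Finset.sum_range_succ' (fun k : ℕ => F (g + k)) m
  have h3 : ∑ k ∈ range m, F (g + (k + 1 : ℕ)) = ∑ k ∈ range m, F (g + 1 + k) := by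
    apply Finset.sum_congr rfl
    intro k _
    congr 1
    push_cast
    ring
  have h4 := hF g
  simp only [Nat.cast_zero, add_zero] at h2
  rw [h3] at h2
  linarith

lemma sum_shift_nat (m : ℕ) (F : ℤ → ℤ) (hF : ∀ g, F (g + m) = F g) (g : ℤ) (n : ℕ) :
    ∑ k ∈ range m, F (g + n + k) = ∑ k ∈ range m, F (g + k) := by
  induction n with
  | zero => simp
  | succ n ih =>
    rw [← ih, ← sum_shift m F hF (g + n)]
    apply Finset.sum_congr rfl
    intro k _
    congr 1
    push_cast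
    ring

lemma sum_shift_any (m : ℕ) (F : ℤ → ℤ) (hF : ∀ g, F (g + m) = F g) (g g' : ℤ) :
    ∑ k ∈ range m, F (g + k) = ∑ k ∈ range m, F (g' + k) := by
  rcases le_total g g' with h | h
  · obtain ⟨n, hn⟩ := Int.eq_ofNat_of_zero_le (sub_nonneg.2 h)
    have : g' = g + n := by linarith
    rw [this, sum_shift_nat m F hF]
  · obtain ⟨n, hn⟩ := Int.eq_ofNat_of_zero_le (sub_nonneg.2 h)
    have : g = g' + n := by linarith
    rw [this, sum_shift_nat m F hF]

/-- the sum over one period -/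
def Fs (m : ℕ) (v : ℤ → Bool) (e : ℤ → ℕ) : ℤ := ∑ k ∈ range m, f m v e k

lemma Fs_eq {m : ℕ} {v : ℤ → Bool} {e : ℤ → ℕ} (w : Walk m v e) (g : ℤ) :
    Fs m v e = ∑ k ∈ range m, f m v e (g + k) := by
  have := sum_shift_any m (f m v e) w.f_periodic 0 g
  simp only [zero_add] at this
  exact this

/-- number of up steps among the first n steps after g -/
def ups (v : ℤ → Bool) (g : ℤ) (n : ℕ) : ℕ := ((range n).filter (fun k : ℕ => v (g + k) = false)).card

lemma ups_succ (v : ℤ → Bool) (g : ℤ) (n : ℕ) :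
    ups v g (n + 1) = ups v g n + (if v (g + n) = false then 1 else 0) := by
  unfold ups
  rw [Finset.range_add_one, Finset.filter_insert]
  split_ifs with h
  · rw [Finset.card_insert_of_notMem]
    simp
  · rfl

lemma level_ups {m : ℕ} {v : ℤ → Bool} {e : ℤ → ℕ} (w : Walk m v e) (g : ℤ) (n : ℕ) :
    e (g + n) + n = e g + 2 * ups v g n := by
  induction n with
  | zero => simp [ups]
  | succ n ih =>
    rw [ups_succ]
    have h : g + ((n + 1 : ℕ) : ℤ) = g + n + 1 := by push_cast; ring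
    rw [h]
    cases hv : v (g + n)
    · have := w.up _ hv
      simp
      omega
    · have := w.down _ hv
      simp
      omega

lemma ups_max {m : ℕ} {v : ℤ → Bool} {e : ℤ → ℕ} (w : Walk m v e) (g : ℤ) :
    ups v g m + e g = m := by
  have h1 := level_ups w g m
  have h2 := w.sum g
  omega

/-- per up step cost -/
def cc (m y : ℕ) : ℤ := H m y + H m (y + 1) + OO m y + OO m (y + 1)
  - 3 * ((m:ℤ) - 1) * (T m y + T m (m - 1 - y))

/-- lower bound for the local summand at k >= 1 -/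
def loc (m : ℕ) (v : ℤ → Bool) (e : ℤ → ℕ) (g : ℤ) : ℤ :=
  3 * ((m:ℤ) - 1) * (G m (e g) - G m (e (g + 1)))
  + (if v g = false then 3 * ((m:ℤ) - 1) * (T m (e g) + T m (m - 1 - e g)) else 0)
  - (if v g = false then H m (e g) + OO m (e g + 1) else 0)
  - (if v (g - 1) = false then H m (e (g - 1) + 1) + OO m (e (g - 1)) else 0)

lemma f_ge_loc {m : ℕ} {v : ℤ → Bool} {e : ℤ → ℕ} (w : Walk m v e) (g : ℤ) :
    loc m v e g ≤ f m v e g := by
  have n1 := H_nonneg m (e g) (w.le g)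
  have n2 := H_nonneg m (e (g - 1) + 1) (w.lt (g - 1))
  have n3 := OO_nonneg m (e g + 1)
  have n4 := OO_nonneg m (e (g - 1))
  have n5 := OO_nonneg m (e (g + 1))
  unfold loc f
  cases hv : v g
  · have h1 := w.up g hv
    have hT := T_eq m (e g)
    simp only [Bool.false_eq_true, if_false, if_true]
    rw [h1]
    cases hv1 : v (g - 1)
    · simp only [ne_eq, not_true_eq_false, if_false, if_true, false_and, and_false]
      rw [hT]; nlinarith
    · simp only [ne_eq, reduceCtorEq, not_false_eq_true, if_true, if_false, true_and]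
      rw [h1] at n5
      split_ifs <;> rw [hT] <;> nlinarith
  · have h1 := w.down g hv
    have hT := T_eq m (e (g + 1))
    simp only [if_true, reduceCtorEq, if_false]
    rw [← h1] at hT
    cases hv1 : v (g - 1)
    · have h2 := w.up (g - 1) hv1
      rw [show g - 1 + 1 = g by ring] at h2
      simp only [ne_eq, reduceCtorEq, not_false_eq_true, if_true, true_and]
      have h3 : e (g + 1) = e (g - 1) := by omega
      rw [← h2, ← h3, hT]
      split_ifs <;> nlinarith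
    · simp only [ne_eq, not_true_eq_false, if_false, false_and, and_false, reduceCtorEq]
      rw [hT]; nlinarith


lemma main_bound_aux {m : ℕ} {v : ℤ → Bool} {e : ℤ → ℕ} (w : Walk m v e) (g : ℤ)
    (h0 : v g = true) (h1 : v (g - 1) = false) (n : ℕ) :
    3 * ((m:ℤ) - 1) * (G m (e g) - G m (e (g + n + 1))) - H m (e g) - OO m (e g - 1)
      - (∑ k ∈ range (n + 1), if v (g + k) = false then cc m (e (g + k)) else 0)
      + (if v (g + n) = false then H m (e (g + n) + 1) + OO m (e (g + n)) else 0)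
      ≤ ∑ k ∈ range (n + 1), f m v e (g + k) := by
  induction n with
  | zero =>
    have hd := w.down g h0
    have hT := T_eq m (e (g + 1))
    rw [← hd] at hT
    have n5 := OO_nonneg m (e (g + 1))
    simp only [zero_add, Finset.sum_range_one, Nat.cast_zero, add_zero, h0, Bool.true_eq_false,
      if_false, sub_zero]
    unfold f
    simp only [h0, h1, if_true, ne_eq, Bool.false_eq_true, not_false_eq_true]
    rw [hT, show e g - 1 = e (g + 1) by omega]
    split_ifs <;> linarith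
  | succ n ih =>
    rw [Finset.sum_range_succ, Finset.sum_range_succ (n := n + 1)]
    have hl := f_ge_loc w (g + ((n + 1 : ℕ) : ℤ))
    unfold loc at hl
    rw [show g + ((n + 1 : ℕ) : ℤ) = g + n + 1 by push_cast; ring] at hl ⊢
    rw [show g + (n:ℤ) + 1 - 1 = g + n by ring] at hl
    unfold cc at ih ⊢
    split_ifs at ih hl ⊢ <;> linarith

lemma main_bound {m : ℕ} (hm : 1 ≤ m) {v : ℤ → Bool} {e : ℤ → ℕ} (w : Walk m v e) (g : ℤ)
    (h0 : v g = true) (h1 : v (g - 1) = false) :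
    3 * ((m:ℤ) - 1) * (G m (e g) - G m (m - e g)) - H m (e g) - OO m (e g - 1)
      - (∑ k ∈ range m, if v (g + k) = false then cc m (e (g + k)) else 0)
      ≤ Fs m v e := by
  rw [Fs_eq w g]
  obtain ⟨n, rfl⟩ : ∃ n, m = n + 1 := ⟨m - 1, by omega⟩
  have h := main_bound_aux w g h0 h1 n
  have h2 := w.anti (g - 1)
  rw [show g - 1 + ((n + 1 : ℕ) : ℤ) = g + n by push_cast; ring, h1] at h2
  have h3 := w.sum g
  rw [show g + ((n + 1 : ℕ) : ℤ) = g + n + 1 by push_cast; ring] at h3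
  rw [h2, show e (g + n + 1) = n + 1 - e g by omega] at h
  simp only [Bool.not_false, Bool.true_eq_false, if_false, add_zero] at h
  exact h

lemma main_bound_K {m : ℕ} (hm : 1 ≤ m) {v : ℤ → Bool} {e : ℤ → ℕ} (w : Walk m v e) (g : ℤ)
    (h0 : v g = true) (h1 : v (g - 1) = false) (K : ℤ)
    (hK : ∀ k : ℕ, k < m → v (g + k) = false → cc m (e (g + k)) ≤ K) :
    3 * ((m:ℤ) - 1) * (G m (e g) - G m (m - e g)) - H m (e g) - OO m (e g - 1)
      - (ups v g m : ℤ) * K ≤ Fs m v e := by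
  refine le_trans ?_ (main_bound hm w g h0 h1)
  have : (∑ k ∈ range m, if v (g + k) = false then cc m (e (g + k)) else 0) ≤ (ups v g m : ℤ) * K := by
    rw [← Finset.sum_filter]
    calc _ ≤ ∑ k ∈ (range m).filter (fun k : ℕ => v (g + k) = false), K := by
            apply Finset.sum_le_sum
            intro k hk
            simp only [Finset.mem_filter, Finset.mem_range] at hk
            exact hK k hk.1 hk.2
      _ = _ := by rw [Finset.sum_const, nsmul_eq_mul]; rfl
  linarith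

lemma cc_symm (m y : ℕ) (hy : y + 1 ≤ m) : cc m (m - 1 - y) = cc m y := by
  unfold cc
  have h1 : H m (m - 1 - y) = H m (y + 1) := by
    rw [show m - 1 - y = m - (y + 1) by omega]; exact H_symm m _ hy
  have h2 : H m (m - 1 - y + 1) = H m y := by
    rw [show m - 1 - y + 1 = m - y by omega]; exact H_symm m _ (by omega)
  have h3 : OO m (m - 1 - y) = OO m (y + 1) := by
    rw [show m - 1 - y = m - (y + 1) by omega]; exact OO_symm m _ hy
  have h4 : OO m (m - 1 - y + 1) = OO m y := by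
    rw [show m - 1 - y + 1 = m - y by omega]; exact OO_symm m _ (by omega)
  rw [h1, h2, h3, h4, show m - 1 - (m - 1 - y) = y by omega]
  ring

lemma pow_le' {a b : ℕ} (h : a ≤ b) : (2:ℤ) ^ a ≤ 2 ^ b := pow_le_pow_right₀ (by norm_num) h

/-- cost bound away from the middle -/
lemma cc_upper (y d : ℕ) (hd : 2 ≤ d) (hy : d < y) :
    cc (y + d + 1) y ≤ 2 ^ y * (4 * (y:ℤ) + 5 * d - 3 * d ^ 2 + 3) := by
  obtain ⟨c, rfl⟩ : ∃ c, d = c + 1 := ⟨d - 1, by omega⟩
  obtain ⟨z, rfl⟩ : ∃ z, y = z + 1 := ⟨y - 1, by omega⟩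
  have hcz : c < z := by omega
  have p1 : (2:ℤ) ^ c ≤ 2 ^ z := pow_le' hcz.le
  have p2 : 2 * (2:ℤ) ^ c ≤ 2 ^ z := by
    have := pow_le' (show c + 1 ≤ z by omega)
    rw [pow_succ] at this; linarith
  have pc : (0:ℤ) < 2 ^ c := by positivity
  have W1 : W (z + 1 + 1) (c + 1) ≤ 4 * 2 ^ z + 2 ^ c := by
    unfold W
    simp only [Nat.add_sub_cancel]
    rw [max_le_iff]
    constructor
    · rw [pow_succ, pow_succ]; linarith
    · rw [pow_succ, pow_succ]; linarith
  have W2 : W (z + 1) (c + 2) ≤ 2 * 2 ^ z + 2 * 2 ^ c := by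
    unfold W
    rw [show c + 2 - 1 = c + 1 by omega, show z + 1 - 1 = z by omega, max_le_iff]
    constructor
    · rw [pow_succ, pow_succ]; linarith
    · rw [pow_succ, pow_succ]; linarith
  have e1 : z + 1 + (c + 1) + 1 - (z + 1) = c + 2 := by omega
  have e2 : z + 1 + (c + 1) + 1 - (z + 1 + 1) = c + 1 := by omega
  have hO1 : OO (z + 1 + (c + 1) + 1) (z + 1) = 2 * 2 ^ z + 8 * 2 ^ c := by
    unfold OO
    rw [e1, max_eq_left (by omega), e1]
    rw [show c + 2 + 1 = c + 3 by ring, pow_add, pow_add]; ring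
  have hO2 : OO (z + 1 + (c + 1) + 1) (z + 1 + 1) = 4 * 2 ^ z + 4 * 2 ^ c := by
    unfold OO
    rw [e2, max_eq_left (by omega), e2]
    ring
  have hT1 : T (z + 1 + (c + 1) + 1) (z + 1) = (c:ℤ) * (2 * 2 ^ z) := by
    unfold T; push_cast; rw [pow_succ]; ring
  have hT2 : T (z + 1 + (c + 1) + 1) (c + 1) = (z:ℤ) * (2 * 2 ^ c) := by
    unfold T; push_cast; rw [pow_succ]; ring
  have hH1 : H (z + 1 + (c + 1) + 1) (z + 1) ≤ ((z:ℤ) + 1) * (c + 2) * (2 * 2 ^ z + 2 * 2 ^ c) := by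
    unfold H
    rw [e1]
    have : ((z + 1 + (c + 1) + 1 : ℕ) : ℤ) - ((z + 1 : ℕ) : ℤ) = c + 2 := by push_cast; ring
    rw [this]
    push_cast
    exact mul_le_mul_of_nonneg_left W2 (by positivity)
  have hH2 : H (z + 1 + (c + 1) + 1) (z + 1 + 1) ≤ ((z:ℤ) + 2) * (c + 1) * (4 * 2 ^ z + 2 ^ c) := by
    unfold H
    rw [e2]
    have : ((z + 1 + (c + 1) + 1 : ℕ) : ℤ) - ((z + 1 + 1 : ℕ) : ℤ) = c + 1 := by push_cast; ring
    rw [this]
    push_cast
    rw [show (z:ℤ) + 1 + 1 = z + 2 by ring]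
    exact mul_le_mul_of_nonneg_left W1 (by positivity)
  unfold cc
  rw [hO1, hO2, hT1, show z + 1 + (c + 1) + 1 - 1 - (z + 1) = c + 1 by omega, hT2]
  push_cast
  rw [pow_succ]
  have hz : (c:ℤ) + 1 ≤ z := by exact_mod_cast hcz
  have hc : (1:ℤ) ≤ c := by exact_mod_cast (show 1 ≤ c by omega)
  have key : (2:ℤ) ^ c * (((z:ℤ) + 1) * (c + 2) * 2 + (z + 2) * (c + 1) + 12
      - 6 * (z + c + 2) * z) ≤ 0 := by
    apply mul_nonpos_of_nonneg_of_nonpos pc.le
    nlinarith
  nlinarith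

/-- cost bound in the middle -/
lemma cc_mid (y : ℕ) (hy : 3 ≤ y) : cc (y + y + 1) y ≤ 0 := by
  obtain ⟨z, rfl⟩ : ∃ z, y = z + 1 := ⟨y - 1, by omega⟩
  have pz : (0:ℤ) < 2 ^ z := by positivity
  have W1 : W (z + 1 + 1) (z + 1) ≤ 5 * 2 ^ z := by
    unfold W
    simp only [Nat.add_sub_cancel]
    rw [max_le_iff]
    constructor
    · rw [pow_succ, pow_succ]; linarith
    · rw [pow_succ]; linarith
  have W2 : W (z + 1) (z + 2) ≤ 5 * 2 ^ z := by rw [W_comm]; exact W1
  have e1 : z + 1 + (z + 1) + 1 - (z + 1) = z + 2 := by omega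
  have e2 : z + 1 + (z + 1) + 1 - (z + 1 + 1) = z + 1 := by omega
  have hO2 : OO (z + 1 + (z + 1) + 1) (z + 1 + 1) = 8 * 2 ^ z := by
    unfold OO
    rw [e2, max_eq_left (by omega), e2]
    rw [show z + 1 + 1 = z + 2 by ring, pow_add]; ring
  have hO1 : OO (z + 1 + (z + 1) + 1) (z + 1) = 8 * 2 ^ z := by
    have := OO_symm (z + 1 + (z + 1) + 1) (z + 1 + 1) (by omega)
    rw [e2] at this
    rw [this, hO2]
  have hT1 : T (z + 1 + (z + 1) + 1) (z + 1) = (z:ℤ) * (2 * 2 ^ z) := by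
    unfold T; push_cast; rw [pow_succ]; ring
  have hH1 : H (z + 1 + (z + 1) + 1) (z + 1) ≤ ((z:ℤ) + 1) * (z + 2) * (5 * 2 ^ z) := by
    unfold H
    rw [e1]
    have : ((z + 1 + (z + 1) + 1 : ℕ) : ℤ) - ((z + 1 : ℕ) : ℤ) = z + 2 := by push_cast; ring
    rw [this]
    push_cast
    exact mul_le_mul_of_nonneg_left W2 (by positivity)
  have hH2 : H (z + 1 + (z + 1) + 1) (z + 1 + 1) ≤ ((z:ℤ) + 2) * (z + 1) * (5 * 2 ^ z) := by
    unfold H
    rw [e2]
    have : ((z + 1 + (z + 1) + 1 : ℕ) : ℤ) - ((z + 1 + 1 : ℕ) : ℤ) = z + 1 := by push_cast; ring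
    rw [this]
    push_cast
    rw [show (z:ℤ) + 1 + 1 = z + 2 by ring]
    exact mul_le_mul_of_nonneg_left W1 (by positivity)
  unfold cc
  rw [hO1, hO2, show z + 1 + (z + 1) + 1 - 1 - (z + 1) = z + 1 by omega, hT1]
  push_cast
  have hz : (2:ℤ) ≤ z := by exact_mod_cast (show 2 ≤ z by omega)
  have key : (2:ℤ) ^ z * (((z:ℤ) + 1) * (z + 2) * 10 + 16 - 12 * (2 * z + 2) * z) ≤ 0 := by
    apply mul_nonpos_of_nonneg_of_nonpos pz.le
    nlinarith
  nlinarith

/-- all costs, in terms of the minimal depth a -/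
lemma cc_le (m a y : ℕ) (hm : 7 ≤ m) (ha : 2 ≤ a) (hay : a ≤ y) (hy : y + a + 1 ≤ m) :
    cc m y ≤ max 0 (2 ^ (m - 1 - a) * (4 * ((m:ℤ) - 1) + a - 3 * a ^ 2 + 3)) := by
  wlog hyd : m - 1 - y ≤ y generalizing y
  · rw [← cc_symm m y (by omega)]
    exact this (m - 1 - y) (by omega) (by omega) (by omega)
  obtain ⟨d, hd⟩ : ∃ d, m = y + d + 1 := ⟨m - 1 - y, by omega⟩
  have had : a ≤ d := by omega
  have hdy : d ≤ y := by omega
  rcases hdy.eq_or_lt with h | h
  · subst h
    rw [hd]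
    exact le_trans (cc_mid d (by omega)) (le_max_left _ _)
  · have h1 := cc_upper y d (by omega) h
    rw [← hd] at h1
    refine le_trans h1 ?_
    have hmz : (m:ℤ) = y + d + 1 := by exact_mod_cast hd
    have hadz : (a:ℤ) ≤ d := by exact_mod_cast had
    have haz : (2:ℤ) ≤ a := by exact_mod_cast ha
    by_cases hb : 4 * (y:ℤ) + 5 * d - 3 * d ^ 2 + 3 ≤ 0
    · exact le_trans (mul_nonpos_of_nonneg_of_nonpos (by positivity) hb) (le_max_left _ _)
    · push Not at hb
      refine le_trans ?_ (le_max_right _ _)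
      have h2 : 4 * (y:ℤ) + 5 * d - 3 * d ^ 2 + 3 ≤ 4 * ((m:ℤ) - 1) + a - 3 * a ^ 2 + 3 := by
        rw [hmz]; nlinarith
      have h3 : (2:ℤ) ^ y ≤ 2 ^ (m - 1 - a) := pow_le' (by omega)
      exact mul_le_mul h3 h2 hb.le (by positivity)

end KALD
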