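import Pool.Agent.KALD.Main

namespace KALD

open Finset

variable {m : ℕ}

/-- sign of line l in the direction of position r (same as KK.sg) -/
def sg (v : Fin m → Bool) (r l : Fin m) : Bool := if l ≤ r then !(v l) else v l

/-- residue as an element of Fin m -/
def res (m : ℕ) [NeZero m] (x : ℤ) : Fin m :=
  ⟨(x % (m:ℤ)).toNat, by
    have h0 : (0:ℤ) < m := by exact_mod_cast Nat.pos_of_ne_zero (NeZero.ne m)
    have h1 := Int.emod_nonneg x h0.ne'
    have h2 := Int.emod_lt_of_pos x h0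
    omega⟩

/-- antiperiodic extension -/
def ex [NeZero m] (v : Fin m → Bool) (x : ℤ) : Bool :=
  xor (v (res m x)) (decide ((x / (m:ℤ)) % 2 = 1))

lemma mpos (m : ℕ) [NeZero m] : (0:ℤ) < m := by exact_mod_cast Nat.pos_of_ne_zero (NeZero.ne m)

lemma res_val [NeZero m] (a : Fin m) (q : ℤ) : res m ((a:ℕ) + m * q) = a := by
  unfold res
  ext
  simp only
  rw [Int.add_mul_emod_self_left, Int.emod_eq_of_lt (by positivity) (by exact_mod_cast a.2)]
  simp

lemma ex_val [NeZero m] (v : Fin m → Bool) (a : Fin m) (q : ℤ) :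
    ex v ((a:ℕ) + m * q) = xor (v a) (decide (q % 2 = 1)) := by
  unfold ex
  rw [res_val, Int.add_mul_ediv_left _ _ (mpos m).ne',
    Int.ediv_eq_zero_of_lt (by positivity) (by exact_mod_cast a.2), zero_add]

lemma rep [NeZero m] (x : ℤ) : ∃ (a : Fin m) (q : ℤ), x = (a:ℕ) + m * q := by
  refine ⟨res m x, x / m, ?_⟩
  unfold res
  simp only
  have h1 := Int.emod_nonneg x (mpos m).ne'
  rw [Int.toNat_of_nonneg h1]
  exact (Int.emod_add_mul_ediv x m).symm

lemma ex_anti [NeZero m] (v : Fin m → Bool) (x : ℤ) : ex v (x + m) = !ex v x := by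
  obtain ⟨a, q, rfl⟩ := rep (m := m) x
  rw [show ((a:ℕ):ℤ) + m * q + m = (a:ℕ) + m * (q + 1) by ring, ex_val, ex_val]
  have : (decide ((q + 1) % 2 = 1)) = !(decide (q % 2 = 1)) := by
    by_cases h : q % 2 = 1
    · have h2 : (q + 1) % 2 = 0 := by omega
      simp [h, h2]
    · have h2 : (q + 1) % 2 = 1 := by omega
      simp [h, h2]
  rw [this]
  cases v a <;> cases decide (q % 2 = 1) <;> rfl

lemma ex_nat [NeZero m] (v : Fin m → Bool) (a : Fin m) : ex v ((a:ℕ):ℤ) = v a := by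
  have := ex_val v a 0
  simpa using this

/-- level function -/
def lev [NeZero m] (v : Fin m → Bool) (g : ℤ) : ℕ :=
  ∑ k ∈ range m, (if ex v (g + k) = true then 1 else 0)

lemma lev_step [NeZero m] (v : Fin m → Bool) (g : ℤ) :
    lev v (g + 1) + (if ex v g = true then 1 else 0) = lev v g + (if ex v g = true then 0 else 1) := by
  have h1 : ∑ k ∈ range (m + 1), (if ex v (g + k) = true then 1 else 0)
      = lev v g + (if ex v (g + m) = true then 1 else 0) :=
    Finset.sum_range_succ (fun k : ℕ => if ex v (g + k) = true then 1 else 0) m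
  have h2 : ∑ k ∈ range (m + 1), (if ex v (g + k) = true then 1 else 0)
      = (∑ k ∈ range m, (if ex v (g + (k + 1 : ℕ)) = true then 1 else 0))
        + (if ex v (g + (0:ℕ)) = true then 1 else 0) :=
    Finset.sum_range_succ' (fun k : ℕ => if ex v (g + k) = true then 1 else 0) m
  have h3 : (∑ k ∈ range m, (if ex v (g + (k + 1 : ℕ)) = true then 1 else 0)) = lev v (g + 1) := by
    unfold lev
    apply Finset.sum_congr rfl
    intro k _
    rw [show g + ((k + 1 : ℕ) : ℤ) = g + 1 + k by push_cast; ring]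
  rw [h3, h1] at h2
  rw [ex_anti] at h2
  simp only [Nat.cast_zero, add_zero] at h2
  cases h : ex v g <;> simp [h] at h2 ⊢ <;> omega

lemma lev_sum [NeZero m] (v : Fin m → Bool) (g : ℤ) : lev v (g + m) + lev v g = m := by
  unfold lev
  rw [← Finset.sum_add_distrib]
  calc _ = ∑ k ∈ range m, 1 := by
        apply Finset.sum_congr rfl
        intro k _
        rw [show g + (m:ℤ) + k = g + k + m by ring, ex_anti]
        cases ex v (g + k) <;> rfl
    _ = m := by simp

lemma sg_ex [NeZero m] (v : Fin m → Bool) (r j : Fin m) :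
    sg v r j = ex v (if (j:ℕ) ≤ r then ((j:ℕ):ℤ) + m else (j:ℕ)) := by
  unfold sg
  by_cases h : j ≤ r
  · have h' : (j:ℕ) ≤ r := h
    rw [if_pos h, if_pos h', ex_anti, ex_nat]
  · have h' : ¬ (j:ℕ) ≤ r := h
    rw [if_neg h, if_neg h', ex_nat]

/-- levels at the positions of Fin m -/
lemma lev_pos [NeZero m] (v : Fin m → Bool) (r : Fin m) :
    lev v ((r:ℕ) + 1) = (univ.filter (fun l => sg v r l = true)).card := by
  classical
  rw [Finset.card_filter]
  have hr := r.2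
  simp_rw [sg_ex v r]
  rw [Fin.sum_univ_eq_sum_range (fun j : ℕ => if ex v (if j ≤ r then (j:ℤ) + m else j) = true then 1 else 0) m]
  obtain ⟨s, hs⟩ : ∃ s, m = (r + 1) + s := ⟨m - (r + 1), by omega⟩
  unfold lev
  have e1 : range m = range (s + (r + 1)) := by rw [show s + ((r:ℕ) + 1) = m by omega]
  have e2 : range m = range ((r + 1) + s) := by rw [← hs]
  conv_lhs => rw [e1]
  conv_rhs => rw [e2]
  rw [Finset.sum_range_add _ s (r + 1), Finset.sum_range_add _ (r + 1) s, add_comm]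
  congr 1
  · apply Finset.sum_congr rfl
    intro k hk
    rw [Finset.mem_range] at hk
    rw [if_pos (show k ≤ (r:ℕ) by omega)]
    rw [show ((r:ℕ):ℤ) + 1 + ((s + k : ℕ) : ℤ) = k + m by
      have : (m:ℤ) = (r:ℕ) + 1 + s := by exact_mod_cast hs
      rw [this]; push_cast; ring]
  · apply Finset.sum_congr rfl
    intro k hk
    rw [if_neg (show ¬ ((r:ℕ) + 1 + k ≤ (r:ℕ)) by omega)]
    rw [show (((r:ℕ) + 1 + k : ℕ) : ℤ) = ((r:ℕ):ℤ) + 1 + k by push_cast; ring]

/-- main part of the local summand -/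
def tau (m : ℕ) (v : ℤ → Bool) (e : ℤ → ℕ) (g : ℤ) : ℤ :=
  if v g = true then T m (e (g + 1)) else T m (m - 1 - e g)
/-- turning gap part -/
def hp (m : ℕ) (v : ℤ → Bool) (e : ℤ → ℕ) (g : ℤ) : ℤ :=
  if v (g - 1) ≠ v g then H m (e g) else 0
/-- three turning gaps part -/
def op (m : ℕ) (v : ℤ → Bool) (e : ℤ → ℕ) (g : ℤ) : ℤ :=
  if v (g - 2) ≠ v (g - 1) ∧ v (g - 1) ≠ v g ∧ v g ≠ v (g + 1) then OO m (e (g + 1)) else 0

lemma turn_periodic {m : ℕ} {v : ℤ → Bool} {e : ℤ → ℕ} (w : Walk m v e) (g : ℤ) :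
    (v (g + m - 1) ≠ v (g + m)) ↔ (v (g - 1) ≠ v g) := by
  have h0 := w.anti g
  have h1 := w.anti (g - 1)
  rw [show g + (m:ℤ) - 1 = g - 1 + m by ring, h0, h1]
  cases v (g - 1) <;> cases v g <;> simp

lemma hp_periodic {m : ℕ} {v : ℤ → Bool} {e : ℤ → ℕ} (w : Walk m v e) (g : ℤ) :
    hp m v e (g + m) = hp m v e g := by
  unfold hp
  have s0 := w.sum g
  rw [show e (g + m) = m - e g by omega, H_symm m _ (w.le g)]
  simp only [turn_periodic w g]

lemma op_periodic {m : ℕ} {v : ℤ → Bool} {e : ℤ → ℕ} (w : Walk m v e) (g : ℤ) :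
    op m v e (g + m) = op m v e g := by
  unfold op
  have s0 := w.sum (g + 1)
  have t1 := turn_periodic w (g - 1)
  have t2 := turn_periodic w g
  have t3 := turn_periodic w (g + 1)
  rw [show g - 1 + (m:ℤ) - 1 = g + m - 2 by ring, show g - 1 + (m:ℤ) = g + m - 1 by ring,
    show g - 1 - 1 = g - 2 by ring] at t1
  rw [show g + 1 + (m:ℤ) - 1 = g + m by ring, show g + 1 + (m:ℤ) = g + m + 1 by ring,
    show g + 1 - 1 = g by ring] at t3
  rw [show g + 1 + (m:ℤ) = g + m + 1 by ring] at s0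
  rw [show e (g + m + 1) = m - e (g + 1) by omega, OO_symm m _ (w.le (g + 1))]
  simp only [t1, t2, t3]

lemma Fs_split {m : ℕ} {v : ℤ → Bool} {e : ℤ → ℕ} (w : Walk m v e) :
    Fs m v e = 3 * ((m:ℤ) - 1) * (∑ k ∈ range m, tau m v e k)
      - (∑ k ∈ range m, hp m v e (1 + k)) - (∑ k ∈ range m, op m v e (2 + k)) := by
  have h1 := sum_shift_any m (hp m v e) (hp_periodic w) 1 0
  have h2 := sum_shift_any m (op m v e) (op_periodic w) 2 0
  rw [h1, h2, Finset.mul_sum, ← Finset.sum_sub_distrib, ← Finset.sum_sub_distrib]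
  unfold Fs
  apply Finset.sum_congr rfl
  intro k _
  rw [zero_add]
  rfl

lemma good_shift [NeZero m] (v : Fin m → Bool) (x : ℤ) :
    (1 ≤ lev v (x + m) ∧ lev v (x + m) + 1 ≤ m) ↔ (1 ≤ lev v x ∧ lev v x + 1 ≤ m) := by
  have := lev_sum v x
  omega

lemma good_all [NeZero m] (v : Fin m → Bool)
    (h : ∀ r : Fin m, 1 ≤ lev v ((r:ℕ) + 1) ∧ lev v ((r:ℕ) + 1) + 1 ≤ m) (x : ℤ) :
    1 ≤ lev v x ∧ lev v x + 1 ≤ m := by
  obtain ⟨a, q, hq⟩ := rep (m := m) (x - 1)
  have hx : x = ((a:ℕ) + 1) + m * q := by linarith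
  rw [hx]
  induction q using Int.induction_on generalizing x with
  | zero => simpa using h a
  | succ i ih =>
    have := (good_shift v (((a:ℕ):ℤ) + 1 + m * i)).2 (ih _ (by ring) rfl)
    rw [show ((a:ℕ):ℤ) + 1 + m * ((i:ℤ) + 1) = ((a:ℕ):ℤ) + 1 + m * i + m by ring]
    exact this
  | pred i ih =>
    apply (good_shift v _).1
    rw [show ((a:ℕ):ℤ) + 1 + m * (-(i:ℤ) - 1) + m = ((a:ℕ):ℤ) + 1 + m * (-(i:ℤ)) by ring]
    exact ih _ (by ring) rfl

lemma walk_of [NeZero m] (v : Fin m → Bool)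
    (h : ∀ r : Fin m, 1 ≤ lev v ((r:ℕ) + 1) ∧ lev v ((r:ℕ) + 1) + 1 ≤ m) :
    Walk m (ex v) (lev v) where
  anti := ex_anti v
  down := by
    intro g hg
    have := lev_step v g
    rw [hg] at this
    simp at this
    omega
  up := by
    intro g hg
    have := lev_step v g
    rw [hg] at this
    simp at this
    omega
  sum := lev_sum v
  pos := fun g => (good_all v h g).1

/-- number of lines in the open half circle after b_i -/
def hh (v : Fin m → Bool) (i : Fin m) : ℕ := (univ.filter (fun j => sg v i j = v i)).card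

/-- number of lines with the sign of line r at position r -/
def AA (v : Fin m → Bool) (r : Fin m) : ℕ := (univ.filter (fun j => sg v r j = sg v r r)).card

lemma card_false (v : Fin m → Bool) (r : Fin m) :
    (univ.filter (fun j => sg v r j = false)).card
      = m - (univ.filter (fun j => sg v r j = true)).card := by
  have h := Finset.card_filter_add_card_filter_not (s := (univ : Finset (Fin m)))
    (fun j => sg v r j = true)
  have h2 : (univ.filter (fun j => ¬ sg v r j = true)) = univ.filter (fun j => sg v r j = false) := by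
    apply Finset.filter_congr; intro j _; cases sg v r j <;> simp
  rw [h2] at h
  simp at h
  omega

lemma tau_sum [NeZero m] (v : Fin m → Bool)
    (h : ∀ r : Fin m, 1 ≤ lev v ((r:ℕ) + 1) ∧ lev v ((r:ℕ) + 1) + 1 ≤ m) :
    ∑ k ∈ range m, tau m (ex v) (lev v) k = ∑ i : Fin m, T m (hh v i) := by
  rw [← Fin.sum_univ_eq_sum_range (fun k : ℕ => tau m (ex v) (lev v) k) m]
  apply Finset.sum_congr rfl
  intro i _
  unfold tau hh
  rw [ex_nat]
  have hl := lev_pos v i
  cases hv : v i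
  · have hu := (walk_of v h).up i (by rw [ex_nat]; exact hv)
    simp only [Bool.false_eq_true, if_false]
    rw [card_false, ← hl, hu]
    congr 1
    omega
  · simp only [if_true]
    rw [hl]

lemma AA_cases [NeZero m] (v : Fin m → Bool) (r : Fin m) :
    AA v r = lev v ((r:ℕ) + 1) ∨ AA v r = m - lev v ((r:ℕ) + 1) := by
  unfold AA
  rw [lev_pos]
  cases h : sg v r r
  · right; rw [card_false]
  · left; rfl

lemma ex_succ [NeZero m] (v : Fin m → Bool) (r : Fin m) (hm : 2 ≤ m) :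
    sg v r (r + 1) = ex v ((r:ℕ) + 1) := by
  have hr := r.2
  rw [sg_ex]
  have h1 : ((r + 1 : Fin m) : ℕ) = ((r:ℕ) + 1) % m := by
    rw [Fin.val_add, Fin.val_one', Nat.add_mod_mod]
  rcases Nat.lt_or_ge ((r:ℕ) + 1) m with h | h
  · rw [h1, Nat.mod_eq_of_lt h, if_neg (by omega)]
    push_cast
    rfl
  · have h2 : (r:ℕ) + 1 = m := by omega
    rw [h1, h2, Nat.mod_self, if_pos (by omega)]
    congr 1
    have : ((r:ℕ):ℤ) + 1 = m := by exact_mod_cast h2
    rw [this]; simp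

/-- position r is a turning gap -/
def og [NeZero m] (v : Fin m → Bool) (r : Fin m) : Prop := sg v r r = sg v r (r + 1)

instance [NeZero m] (v : Fin m → Bool) (r : Fin m) : Decidable (og v r) := by
  unfold og; infer_instance

lemma og_iff [NeZero m] (v : Fin m → Bool) (r : Fin m) (hm : 2 ≤ m) :
    og v r ↔ (ex v ((r:ℕ) + 1 - 1) ≠ ex v ((r:ℕ) + 1)) := by
  unfold og
  rw [ex_succ v r hm, sg_ex, if_pos le_rfl, ex_anti, show ((r:ℕ):ℤ) + 1 - 1 = (r:ℕ) by ring]
  cases ex v ((r:ℕ):ℤ) <;> cases ex v (((r:ℕ):ℤ) + 1) <;> simp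

lemma hp_sum [NeZero m] (hm : 2 ≤ m) (v : Fin m → Bool)
    (h : ∀ r : Fin m, 1 ≤ lev v ((r:ℕ) + 1) ∧ lev v ((r:ℕ) + 1) + 1 ≤ m) :
    ∑ k ∈ range m, hp m (ex v) (lev v) (1 + k)
      = ∑ r : Fin m, if og v r then H m (AA v r) else 0 := by
  rw [← Fin.sum_univ_eq_sum_range (fun k : ℕ => hp m (ex v) (lev v) (1 + k)) m]
  apply Finset.sum_congr rfl
  intro r _
  unfold hp
  have hH : H m (AA v r) = H m (lev v ((r:ℕ) + 1)) := by
    rcases AA_cases v r with h1 | h1
    · rw [h1]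
    · rw [h1, H_symm m _ (by have := (h r).2; omega)]
  rw [hH, show (1:ℤ) + ((r:ℕ):ℤ) = (r:ℕ) + 1 by ring]
  simp only [og_iff v r hm]

lemma cyc {α : Type*} [NeZero m] (_hm : 2 ≤ m) (Φ : ℤ → α) (hΦ : ∀ x, Φ (x + m) = Φ x) (φ : Fin m → α)
    (h : ∀ r : Fin m, φ r = Φ ((r:ℕ) + 1)) (s : Fin m) : φ (s + 1) = Φ ((s:ℕ) + 2) := by
  have hs := s.2
  have h1 : ((s + 1 : Fin m) : ℕ) = ((s:ℕ) + 1) % m := by
    rw [Fin.val_add, Fin.val_one', Nat.add_mod_mod]
  rw [h, h1]
  rcases Nat.lt_or_ge ((s:ℕ) + 1) m with h2 | h2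
  · rw [Nat.mod_eq_of_lt h2, show (((s:ℕ) + 1 : ℕ) : ℤ) + 1 = (s:ℕ) + 2 by push_cast; ring]
  · have h3 : (s:ℕ) + 1 = m := by omega
    rw [h3, Nat.mod_self]
    have h4 : ((s:ℕ):ℤ) + 1 = m := by exact_mod_cast h3
    rw [show ((s:ℕ):ℤ) + 2 = ((0:ℕ):ℤ) + 1 + m by rw [← h4]; push_cast; ring, hΦ]

lemma op_sum [NeZero m] (hm : 2 ≤ m) (v : Fin m → Bool)
    (h : ∀ r : Fin m, 1 ≤ lev v ((r:ℕ) + 1) ∧ lev v ((r:ℕ) + 1) + 1 ≤ m) :
    ∑ k ∈ range m, op m (ex v) (lev v) (2 + k)
      = ∑ r : Fin m, if og v (r - 1) ∧ og v r ∧ og v (r + 1) then OO m (AA v (r + 1)) else 0 := by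
  have w := walk_of v h
  rw [← Equiv.sum_comp (Equiv.addRight (1 : Fin m))]
  rw [← Fin.sum_univ_eq_sum_range (fun k : ℕ => op m (ex v) (lev v) (2 + k)) m]
  apply Finset.sum_congr rfl
  intro s _
  simp only [Equiv.coe_addRight, add_sub_cancel_right]
  have hA : ∀ r : Fin m, OO m (AA v r) = (fun x : ℤ => OO m (lev v x)) ((r:ℕ) + 1) := by
    intro r
    rcases AA_cases v r with h1 | h1
    · rw [h1]
    · rw [h1]
      simp only
      rw [OO_symm m _ (by have := (h r).2; omega)]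
  have hAp : ∀ x : ℤ, OO m (lev v (x + m)) = OO m (lev v x) := by
    intro x
    have := lev_sum v x
    rw [show lev v (x + m) = m - lev v x by omega, OO_symm m _ (by omega)]
  have c1 : ∀ r : Fin m, og v (r + 1) ↔ (ex v ((r:ℕ) + 1) ≠ ex v ((r:ℕ) + 2)) := by
    intro r
    have := cyc hm (fun x : ℤ => (ex v (x - 1) ≠ ex v x))
      (fun x => propext (turn_periodic w x)) (og v) (fun r => propext (og_iff v r hm)) r
    rw [this]
    rw [show ((r:ℕ):ℤ) + 2 - 1 = (r:ℕ) + 1 by ring]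
  have c2 : og v (s + 1 + 1) ↔ (ex v ((s:ℕ) + 2) ≠ ex v ((s:ℕ) + 3)) := by
    have := cyc hm (fun x : ℤ => (ex v x ≠ ex v (x + 1)))
      (fun x => propext (by
        have := turn_periodic w (x + 1)
        rw [show x + 1 + (m:ℤ) - 1 = x + m by ring, show x + 1 + (m:ℤ) = x + m + 1 by ring,
          show x + 1 - 1 = x by ring] at this
        exact this)) (fun r => og v (r + 1)) (fun r => propext (by
        rw [c1 r, show ((r:ℕ):ℤ) + 1 + 1 = (r:ℕ) + 2 by ring])) s
    rw [this, show ((s:ℕ):ℤ) + 2 + 1 = (s:ℕ) + 3 by ring]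
  have cA : OO m (AA v (s + 1 + 1)) = OO m (lev v ((s:ℕ) + 3)) := by
    have := cyc hm (fun x : ℤ => OO m (lev v (x + 1)))
      (fun x => by rw [show x + (m:ℤ) + 1 = x + 1 + m by ring]; exact hAp (x + 1))
      (fun r => OO m (AA v (r + 1))) (fun r => by
        have := cyc hm (fun x : ℤ => OO m (lev v x)) hAp (fun r => OO m (AA v r)) hA r
        rw [this, show ((r:ℕ):ℤ) + 1 + 1 = (r:ℕ) + 2 by ring]) s
    rw [this, show ((s:ℕ):ℤ) + 2 + 1 = (s:ℕ) + 3 by ring]
  have c0 := og_iff v s hm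
  unfold op
  rw [show (2:ℤ) + ((s:ℕ):ℤ) - 2 = (s:ℕ) + 1 - 1 by ring, show (2:ℤ) + ((s:ℕ):ℤ) - 1 = (s:ℕ) + 1 by ring,
    show (2:ℤ) + ((s:ℕ):ℤ) + 1 = (s:ℕ) + 3 by ring, show (2:ℤ) + ((s:ℕ):ℤ) = (s:ℕ) + 2 by ring]
  simp only [c0, c1 s, c2, cA]

/-- relation between br and the antiperiodic word -/
lemma br_iff [NeZero m] (v : Fin m → Bool) (x : ℤ) (hx : ex v x = true) (k : ℕ) (hk1 : 1 ≤ k)
    (hkm : k < m) : (sg v (res m (x + k)) (res m x) = v (res m (x + k))) ↔ ex v (x + k) = false := by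
  obtain ⟨a, q, rfl⟩ := rep (m := m) x
  obtain ⟨b, q', hb⟩ := rep (m := m) (((a:ℕ):ℤ) + m * q + k)
  rw [res_val, hb, res_val, ex_val]
  rw [ex_val] at hx
  have ha := a.2
  have hb2 := b.2
  unfold sg
  have hmz := mpos m
  have hq : (q' = q ∧ (b:ℕ) = a + k) ∨ (q' = q + 1 ∧ (b:ℕ) + m = a + k) := by
    have h1 : ((b:ℕ):ℤ) + m * q' = (a:ℕ) + m * q + k := hb.symm
    rcases Nat.lt_or_ge ((a:ℕ) + k) m with h | h
    · left
      have : q' = q := by
        by_contra hne
        rcases lt_or_gt_of_ne hne with h2 | h2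
        · have : (m:ℤ) * (q - q') ≥ m := by nlinarith
          have : ((b:ℕ):ℤ) < m := by exact_mod_cast hb2
          nlinarith
        · have : (m:ℤ) * (q' - q) ≥ m := by nlinarith
          have : ((a:ℕ):ℤ) + k < m := by exact_mod_cast h
          nlinarith
      subst this
      refine ⟨rfl, ?_⟩
      have : ((b:ℕ):ℤ) = (a:ℕ) + k := by linarith
      exact_mod_cast this
    · right
      have h3 : ((m:ℕ):ℤ) ≤ (a:ℕ) + k := by exact_mod_cast h
      have h4 : ((a:ℕ):ℤ) + k < 2 * m := by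
        have : (a:ℕ) + k < 2 * m := by omega
        exact_mod_cast this
      have hbz : ((b:ℕ):ℤ) < m := by exact_mod_cast hb2
      have : q' = q + 1 := by
        by_contra hne
        rcases lt_or_gt_of_ne hne with h2 | h2
        · have : (m:ℤ) * (q - q') ≥ 0 := by
            have : q - q' ≥ 0 := by omega
            positivity
          nlinarith
        · have : (m:ℤ) * (q' - q) ≥ 2 * m := by nlinarith
          nlinarith
      subst this
      refine ⟨rfl, ?_⟩
      have : ((b:ℕ):ℤ) + m = (a:ℕ) + k := by linarith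
      exact_mod_cast this
  rcases hq with ⟨h1, h2⟩ | ⟨h1, h2⟩
  · subst h1
    have hab : a ≤ b := by show (a:ℕ) ≤ b; omega
    rw [if_pos hab]
    revert hx
    cases v a <;> cases v b <;> cases decide (q' % 2 = 1) <;> simp
  · subst h1
    have hab : ¬ a ≤ b := by show ¬ (a:ℕ) ≤ b; omega
    rw [if_neg hab]
    have hpar : decide ((q + 1) % 2 = 1) = !(decide (q % 2 = 1)) := by
      by_cases h : q % 2 = 1
      · have h2 : (q + 1) % 2 = 0 := by omega
        simp [h, h2]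
      · have h2 : (q + 1) % 2 = 1 := by omega
        simp [h, h2]
    rw [hpar]
    revert hx
    cases v a <;> cases v b <;> cases decide (q % 2 = 1) <;> simp

end KALD
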