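import Pool.Agent.KALD.FinForm

namespace KALD

open Finset

variable {m : ℕ}

lemma par_succ (q : ℤ) : decide ((q + 1) % 2 = 1) = !(decide (q % 2 = 1)) := by
  by_cases h : q % 2 = 1
  · have h2 : (q + 1) % 2 = 0 := by omega
    simp [h, h2]
  · have h2 : (q + 1) % 2 = 1 := by omega
    simp [h, h2]

lemma sg_window [NeZero m] (v : Fin m → Bool) (x : ℤ) (k : ℕ) (hk : k < m) :
    sg v (res m (x - 1)) (res m (x + k))
      = xor (ex v (x + k)) (decide (((x - 1) / (m:ℤ)) % 2 = 1)) := by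
  obtain ⟨r, q, hr⟩ := rep (m := m) (x - 1)
  have hx : x = ((r:ℕ):ℤ) + 1 + m * q := by linarith
  have hq : (x - 1) / (m:ℤ) = q := by
    rw [hr, Int.add_mul_ediv_left _ _ (mpos m).ne',
      Int.ediv_eq_zero_of_lt (by positivity) (by exact_mod_cast r.2), zero_add]
  rw [hq, hr, res_val, hx]
  have hrm := r.2
  rcases Nat.lt_or_ge ((r:ℕ) + 1 + k) m with h | h
  · have e1 : ((r:ℕ):ℤ) + 1 + m * q + k = (((⟨(r:ℕ) + 1 + k, h⟩ : Fin m) : ℕ) : ℤ) + m * q := by
      simp only; push_cast; ring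
    rw [e1, res_val, ex_val]
    unfold sg
    rw [if_neg (by show ¬ ((r:ℕ) + 1 + k ≤ r); omega)]
    cases v ⟨(r:ℕ) + 1 + k, h⟩ <;> cases decide (q % 2 = 1) <;> rfl
  · have h' : (r:ℕ) + 1 + k - m < m := by omega
    have e1 : ((r:ℕ):ℤ) + 1 + m * q + k
        = (((⟨(r:ℕ) + 1 + k - m, h'⟩ : Fin m) : ℕ) : ℤ) + m * (q + 1) := by
      simp only; push_cast [Nat.cast_sub h]; ring
    rw [e1, res_val, ex_val, par_succ]
    unfold sg
    rw [if_pos (by show ((r:ℕ) + 1 + k - m ≤ r); omega)]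
    cases v ⟨(r:ℕ) + 1 + k - m, h'⟩ <;> cases decide (q % 2 = 1) <;> rfl

lemma res_surj [NeZero m] (x : ℤ) (j : Fin m) : ∃ k : ℕ, k < m ∧ res m (x + k) = j := by
  have hm := mpos m
  refine ⟨(((j:ℕ) - x) % (m:ℤ)).toNat, ?_, ?_⟩
  · have h1 := Int.emod_nonneg ((j:ℕ) - x) hm.ne'
    have h2 := Int.emod_lt_of_pos ((j:ℕ) - x) hm
    omega
  · have h1 := Int.emod_nonneg ((j:ℕ) - x) hm.ne'
    rw [Int.toNat_of_nonneg h1]
    have h3 := Int.emod_add_mul_ediv ((j:ℕ) - x) m
    rw [show x + ((j:ℕ) - x) % (m:ℤ) = (j:ℕ) + m * (-(((j:ℕ) - x) / (m:ℤ))) by linarith, res_val]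

lemma res_add_m [NeZero m] (x : ℤ) : res m (x + m) = res m x := by
  obtain ⟨a, q, rfl⟩ := rep (m := m) x
  rw [show ((a:ℕ):ℤ) + m * q + m = (a:ℕ) + m * (q + 1) by ring, res_val, res_val]

lemma res_ne [NeZero m] (x : ℤ) (k : ℕ) (h1 : 1 ≤ k) (h2 : k < m) : res m (x + k) ≠ res m x := by
  intro h
  obtain ⟨a, q, hx⟩ := rep (m := m) x
  obtain ⟨b, q', hb⟩ := rep (m := m) (x + k)
  rw [hb, res_val, hx, res_val] at h
  subst h
  have hk : (k:ℤ) = m * (q' - q) := by linarith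
  have hm := mpos m
  have hk2 : (k:ℤ) < m := by exact_mod_cast h2
  have hk1 : (1:ℤ) ≤ k := by exact_mod_cast h1
  rcases le_or_gt (q' - q) 0 with h | h
  · nlinarith
  · nlinarith

/-- the two removable lines of the exceptional word -/
lemma exc_lines [NeZero m] (hm : 4 ≤ m) (v : Fin m → Bool) (g : ℤ) (hx : Exc m (ex v) g) :
    ∃ l1 l2 : Fin m, l1 ≠ l2 ∧ ∀ l, (l = l1 ∨ l = l2) →
      (∃ r s, ∀ j, j ≠ l → sg v r j = s) ∧ (∃ i, i ≠ l ∧ ∀ j, j ≠ l → j ≠ i → sg v j i ≠ v j) := by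
  obtain ⟨x0, x1, x2⟩ := hx
  refine ⟨res m (g + (1:ℕ)), res m g, res_ne g 1 le_rfl (by omega), ?_⟩
  have hw2 : ∀ k : ℕ, k < m → k ≠ m - 2 → ex v (g + 2 + k) = true := by
    intro k hk hk2
    rcases Nat.lt_or_ge (2 + k) m with h | h
    · have := x2 (2 + k) (by omega) h
      rw [show g + ((2 + k : ℕ) : ℤ) = g + 2 + k by push_cast; ring] at this
      exact this
    · have hk3 : k = m - 1 := by omega
      rw [show g + 2 + (k:ℤ) = g + 1 + m by
        rw [hk3]; push_cast [Nat.cast_sub (show 1 ≤ m by omega)]; ring, ex_anti, x1]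
      rfl
  rintro l (rfl | rfl)
  · constructor
    · refine ⟨res m (g - 1), xor true (decide (((g - 1) / (m:ℤ)) % 2 = 1)), fun j hj => ?_⟩
      obtain ⟨k, hk, rfl⟩ := res_surj g j
      rw [sg_window v g k hk]
      congr 1
      rcases (show k = 0 ∨ k = 1 ∨ 2 ≤ k by omega) with rfl | rfl | h
      · simpa using x0
      · exact absurd rfl hj
      · exact x2 k h hk
    · refine ⟨res m g, (res_ne g 1 le_rfl (by omega)).symm, fun j hj hji => ?_⟩
      obtain ⟨k, hk, rfl⟩ := res_surj g j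
      have hk1 : 1 ≤ k := by
        rcases Nat.eq_zero_or_pos k with rfl | h
        · exact absurd (by simp) hji
        · exact h
      have hk2 : k ≠ 1 := fun h => hj (by rw [h])
      intro hc
      have := (br_iff v g x0 k hk1 hk).1 hc
      rw [x2 k (by omega) hk] at this
      exact absurd this (by simp)
  · constructor
    · refine ⟨res m (g + 2 - 1), xor true (decide (((g + 2 - 1) / (m:ℤ)) % 2 = 1)), fun j hj => ?_⟩
      obtain ⟨k, hk, rfl⟩ := res_surj (g + 2) j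
      rw [sg_window v (g + 2) k hk]
      congr 1
      apply hw2 k hk
      intro h
      apply hj
      rw [show g + 2 + (k:ℤ) = g + m by
        rw [h]; push_cast [Nat.cast_sub (show 2 ≤ m by omega)]; ring, res_add_m]
    · refine ⟨res m (g + 2), by exact_mod_cast res_ne g 2 (by norm_num) (by omega), fun j hj hji => ?_⟩
      obtain ⟨k, hk, rfl⟩ := res_surj (g + 2) j
      have hk1 : 1 ≤ k := by
        rcases Nat.eq_zero_or_pos k with rfl | h
        · exact absurd (by simp) hji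
        · exact h
      have hk2 : k ≠ m - 2 := by
        intro h
        apply hj
        rw [show g + 2 + (k:ℤ) = g + m by
          rw [h]; push_cast [Nat.cast_sub (show 2 ≤ m by omega)]; ring, res_add_m]
      intro hc
      have h0 := hw2 0 (by omega) (by omega)
      simp only [Nat.cast_zero, add_zero] at h0
      have := (br_iff v (g + 2) h0 k hk1 hk).1 hc
      rw [hw2 k hk hk2] at this
      exact absurd this (by simp)

/-- The expression of part D. -/
def FF [NeZero m] (v : Fin m → Bool) : ℤ :=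
  3 * ((m:ℤ) - 1) * (∑ i : Fin m, ((m:ℤ) - 2 - hh v i) * 2 ^ hh v i)
  - (∑ r : Fin m, if og v r then (AA v r : ℤ) * ((m:ℤ) - AA v r) * W (AA v r) (m - AA v r) else 0)
  - (∑ r : Fin m, if og v (r - 1) ∧ og v r ∧ og v (r + 1) then
      (2:ℤ) ^ (max (AA v (r + 1)) (m - AA v (r + 1))) + 2 ^ (m - max (AA v (r + 1)) (m - AA v (r + 1)) + 1)
      else 0)

/-- Theorem D. -/
theorem ineq0 [NeZero m] (hm : 8 ≤ m) (v : Fin m → Bool)
    (hpos : ∀ r : Fin m, 1 ≤ (univ.filter (fun l => sg v r l = true)).card ∧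
      1 ≤ (univ.filter (fun l => sg v r l = false)).card) :
    0 ≤ FF v ∨ (FF v = -18 * ((m:ℤ) - 1) ∧ ∃ l1 l2 : Fin m, l1 ≠ l2 ∧ ∀ l, (l = l1 ∨ l = l2) →
      (∃ r s, ∀ j, j ≠ l → sg v r j = s) ∧ (∃ i, i ≠ l ∧ ∀ j, j ≠ l → j ≠ i → sg v j i ≠ v j)) := by
  have h : ∀ r : Fin m, 1 ≤ lev v ((r:ℕ) + 1) ∧ lev v ((r:ℕ) + 1) + 1 ≤ m := by
    intro r
    have h1 := hpos r
    rw [card_false, ← lev_pos] at h1
    omega
  have w := walk_of v h
  have hF : FF v = Fs m (ex v) (lev v) := by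
    rw [Fs_split w, tau_sum v h, hp_sum (by omega) v h, op_sum (by omega) v h]
    unfold FF T H OO
    have hA : ∀ r : Fin m, ((AA v r : ℕ) : ℤ) * ((m:ℤ) - (AA v r : ℕ)) = ((AA v r : ℕ) : ℤ) * ((m:ℤ) - (AA v r : ℕ)) :=
      fun r => rfl
    rfl
  rw [hF]
  rcases main hm w with h1 | ⟨h1, g, hg⟩
  · exact Or.inl h1
  · exact Or.inr ⟨h1, exc_lines (by omega) v g hg⟩

/-- the nonspanning count form -/
theorem ineq0' [NeZero m] (hm : 8 ≤ m) (v : Fin m → Bool)
    (hpos : ∀ r : Fin m, 1 ≤ (univ.filter (fun l => sg v r l = true)).card ∧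
      1 ≤ (univ.filter (fun l => sg v r l = false)).card) (N : ℕ) (S : Finset (Fin m))
    (hS : ∀ l, (∃ i, i ≠ l ∧ ∀ j, j ≠ l → j ≠ i → sg v j i ≠ v j) → l ∈ S) (hN : N = S.card) :
    0 ≤ 9 * ((m:ℤ) - 1) * N + FF v := by
  have hm' : (8:ℤ) ≤ m := by exact_mod_cast hm
  rcases ineq0 hm v hpos with h | ⟨h, l1, l2, hne, hl⟩
  · have : (0:ℤ) ≤ 9 * ((m:ℤ) - 1) * N := by
      have : (0:ℤ) ≤ (m:ℤ) - 1 := by linarith
      positivity
    linarith
  · have h2 : 2 ≤ N := by
      rw [hN]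
      have h1 : l1 ∈ S := hS l1 (hl l1 (Or.inl rfl)).2
      have h2 : l2 ∈ S := hS l2 (hl l2 (Or.inr rfl)).2
      have := Finset.one_lt_card.2 ⟨l1, h1, l2, h2, hne⟩
      omega
    have h2' : (2:ℤ) ≤ N := by exact_mod_cast h2
    rw [h]
    nlinarith

/-- positivity of the levels from the spanning condition -/
lemma pos_of_span [NeZero m] (v : Fin m → Bool) (hS : ∀ i, ∃ j, j ≠ i ∧ sg v j i = v j)
    (r : Fin m) : 1 ≤ (univ.filter (fun l => sg v r l = true)).card ∧
      1 ≤ (univ.filter (fun l => sg v r l = false)).card := by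
  have key : ∀ s : Bool, 1 ≤ (univ.filter (fun l => sg v r l = s)).card := by
    intro s
    by_contra hc
    have h0 : (univ.filter (fun l => sg v r l = s)).card = 0 := by omega
    rw [Finset.card_eq_zero, Finset.filter_eq_empty_iff] at h0
    have h1 : ∀ l, sg v r l = !s := by
      intro l
      have := h0 (Finset.mem_univ l)
      revert this
      cases sg v r l <;> cases s <;> simp
    -- the line following position r
    by_cases hr : (r:ℕ) + 1 < m
    · obtain ⟨j, hji, hj⟩ := hS ⟨(r:ℕ) + 1, hr⟩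
      have hi := h1 ⟨(r:ℕ) + 1, hr⟩
      have hjj := h1 j
      unfold sg at hi hjj hj
      rw [if_neg (by show ¬ ((r:ℕ) + 1 ≤ r); omega)] at hi
      by_cases h : j ≤ r
      · have h' : (j:ℕ) ≤ r := h
        rw [if_pos h] at hjj
        rw [if_neg (by show ¬ ((r:ℕ) + 1 ≤ j); omega), hi] at hj
        rw [← hj] at hjj
        cases s <;> simp at hjj
      · have h' : ¬ (j:ℕ) ≤ r := h
        rw [if_neg h] at hjj
        rw [if_pos (by show ((r:ℕ) + 1 ≤ j); omega), hi, hjj] at hj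
        cases s <;> simp at hj
    · obtain ⟨j, hji, hj⟩ := hS ⟨0, Nat.pos_of_ne_zero (NeZero.ne m)⟩
      have hi := h1 ⟨0, Nat.pos_of_ne_zero (NeZero.ne m)⟩
      have hjj := h1 j
      have hr2 := r.2
      have hj2 := j.2
      unfold sg at hi hjj hj
      rw [if_pos (by show (0 ≤ (r:ℕ)); omega)] at hi
      rw [if_pos (by show ((j:ℕ) ≤ r); omega)] at hjj
      rw [if_pos (by show (0 ≤ (j:ℕ)); omega), hi] at hj
      rw [← hj] at hjj
      cases s <;> simp at hjj
  exact ⟨key true, key false⟩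

end KALD
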