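import Pool.Agent.KALD.SpSum
import Pool.Agent.KK.Mach

namespace KALD

open Finset

variable {m : ℕ}

/-- main term at a gap, walk form -/
def mt (m : ℕ) (v : ℤ → Bool) (e : ℤ → ℕ) (g : ℤ) : ℤ :=
  (e g : ℤ) * 2 ^ (m - e g) + ((m:ℤ) - e g) * 2 ^ (e g)
  - (if v (g - 1) = true then 2 ^ (e g) else 2 ^ (m - e g))
  - (if v g = true then 2 ^ (m - e g) else 2 ^ (e g))
  - (if v g = true then 2 ^ (e g - 1) + 2 ^ (m - e g) else 2 ^ (e g) + 2 ^ (m - e g - 1))

/-- telescoping potential -/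
def pot (m : ℕ) (v : ℤ → Bool) (e : ℤ → ℕ) (g : ℤ) : ℤ :=
  (if v (g - 1) = true then 2 ^ (e g) else 2 ^ (m - e g)) + G m (e g) + G m (m - e g)

lemma mt_loc {m : ℕ} {v : ℤ → Bool} {e : ℤ → ℕ} (w : Walk m v e) (g : ℤ) :
    mt m v e g - 3 * tau m v e g = pot m v e (g + 1) - pot m v e g := by
  have hp := w.pos (g + 1)
  have hl := w.lt (g + 1)
  have hp0 := w.pos g
  have hl0 := w.lt g
  unfold mt tau pot
  rw [show g + 1 - 1 = g by ring]
  cases hv : v g
  · have hu := w.up g hv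
    simp only [Bool.false_eq_true, if_false]
    rw [hu]
    obtain ⟨x, hx⟩ : ∃ x, e g = x := ⟨_, rfl⟩
    rw [hx] at hu hp0 hl0 ⊢
    rw [hu] at hl
    obtain ⟨y, hy⟩ : ∃ y, m = x + y + 2 := ⟨m - x - 2, by omega⟩
    subst hy
    rw [show x + y + 2 - x = y + 2 by omega, show x + y + 2 - (x + 1) = y + 1 by omega,
      show x + y + 2 - 1 - x = y + 1 by omega, show y + 2 - 1 = y + 1 by omega]
    unfold T G
    push_cast
    rw [pow_succ 2 (y + 1), pow_succ 2 y, pow_succ 2 x]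
    split_ifs <;> ring
  · have hu := w.down g hv
    simp only [if_true]
    rw [hu]
    obtain ⟨x, hx⟩ : ∃ x, e (g + 1) = x := ⟨_, rfl⟩
    rw [hx] at hu hp hl ⊢
    obtain ⟨y, hy⟩ : ∃ y, m = x + 1 + y + 1 := ⟨m - x - 2, by omega⟩
    subst hy
    rw [show x + 1 + y + 1 - x = y + 2 by omega, show x + 1 + y + 1 - (x + 1) = y + 1 by omega,
      show x + 1 - 1 = x by omega]
    unfold T G
    push_cast
    rw [pow_succ 2 (y + 1), pow_succ 2 y, pow_succ 2 x]
    split_ifs <;> ring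

lemma pot_periodic {m : ℕ} {v : ℤ → Bool} {e : ℤ → ℕ} (w : Walk m v e) (g : ℤ) :
    pot m v e (g + m) = pot m v e g := by
  unfold pot
  have h1 := w.anti (g - 1)
  have h2 := w.sum g
  rw [show g + (m:ℤ) - 1 = g - 1 + m by ring, h1, show e (g + m) = m - e g by omega,
    show m - (m - e g) = e g by omega]
  cases v (g - 1) <;> simp <;> ring

lemma mt_sum_walk {m : ℕ} {v : ℤ → Bool} {e : ℤ → ℕ} (w : Walk m v e) (g : ℤ) :
    ∑ k ∈ range m, mt m v e (g + k) = 3 * ∑ k ∈ range m, tau m v e (g + k) := by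
  have h : ∀ n : ℕ, ∑ k ∈ range n, mt m v e (g + k) - 3 * ∑ k ∈ range n, tau m v e (g + k)
      = pot m v e (g + n) - pot m v e g := by
    intro n
    induction n with
    | zero => simp
    | succ n ih =>
      rw [Finset.sum_range_succ, Finset.sum_range_succ]
      have := mt_loc w (g + n)
      rw [show g + ((n + 1 : ℕ) : ℤ) = g + n + 1 by push_cast; ring]
      linarith
  have := h m
  rw [pot_periodic w] at this
  linarith

lemma tau_periodic {m : ℕ} {v : ℤ → Bool} {e : ℤ → ℕ} (w : Walk m v e) (g : ℤ) :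
    tau m v e (g + m) = tau m v e g := by
  have h1 := mt_loc w g
  have h0 := w.anti g
  have s0 := w.sum g
  have s1 := w.sum (g + 1)
  unfold tau
  rw [h0, show g + (m:ℤ) + 1 = g + 1 + m by ring]
  cases hv : v g
  · have := w.up g hv
    simp only [Bool.not_false, if_true, Bool.false_eq_true, if_false]
    congr 1
    omega
  · have := w.down g hv
    simp only [Bool.not_true, Bool.false_eq_true, if_false, if_true]
    congr 1
    omega

lemma sg_eq (v : Fin m → Bool) (r l : Fin m) : KK.sg v r l = sg v r l := rfl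

lemma cnt_univ (v : Fin m → Bool) (r : Fin m) (s : Bool) :
    KK.cnt v univ r s = (univ.filter (fun j => sg v r j = s)).card := rfl

/-- level at a position -/
def lv (v : Fin m → Bool) (r : Fin m) : ℕ := KK.cnt v univ r true

/-- main term -/
def MT [NeZero m] (v : Fin m → Bool) : ℤ :=
  ∑ r : Fin m, ((∑ l ∈ univ.filter (fun l => l ≠ r ∧ l ≠ r + 1), (2:ℤ) ^ KK.cnt v univ r (!(KK.sg v r l)))
    - ((2:ℤ) ^ KK.cnt v (univ.erase (r + 1)) r true + 2 ^ KK.cnt v (univ.erase (r + 1)) r false))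

/-- loss of the turning gaps -/
def LT [NeZero m] (v : Fin m → Bool) : ℤ :=
  ∑ r : Fin m, if KK.sg v r r = KK.sg v r (r + 1) then
    (lv v r : ℤ) * ((m:ℤ) - lv v r) * max (2 ^ lv v r + 2 ^ (m - lv v r - 1)) (2 ^ (lv v r - 1) + 2 ^ (m - lv v r))
  else 0

/-- loss of three consecutive turning gaps -/
def OT [NeZero m] (v : Fin m → Bool) : ℤ :=
  ∑ r : Fin m, if KK.sg v (r - 1) (r - 1) = KK.sg v (r - 1) (r - 1 + 1) ∧
      KK.sg v r r = KK.sg v r (r + 1) ∧ KK.sg v (r + 1) (r + 1) = KK.sg v (r + 1) (r + 1 + 1) then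
    (2:ℤ) ^ (max (lv v (r + 1)) (m - lv v (r + 1))) + 2 ^ (m - max (lv v (r + 1)) (m - lv v (r + 1)) + 1)
  else 0

lemma cnt_erase (v : Fin m → Bool) (r x : Fin m) (s : Bool) :
    KK.cnt v (univ.erase x) r s = KK.cnt v univ r s - (if sg v r x = s then 1 else 0) := by
  classical
  unfold KK.cnt
  rw [Finset.filter_erase]
  by_cases h : sg v r x = s
  · rw [if_pos h, Finset.card_erase_of_mem]
    simp only [Finset.mem_filter, Finset.mem_univ, true_and]
    exact h
  · rw [if_neg h, Finset.erase_eq_of_notMem, Nat.sub_zero]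
    simp only [Finset.mem_filter, Finset.mem_univ, true_and]
    exact h

lemma fin_ne_succ [NeZero m] (hm : 2 ≤ m) (r : Fin m) : r + 1 ≠ r := by
  intro h
  have h1 : ((r + 1 : Fin m) : ℕ) = ((r:ℕ) + 1) % m := by
    rw [Fin.val_add, Fin.val_one', Nat.add_mod_mod]
  rw [h] at h1
  have hr := r.2
  rcases Nat.lt_or_ge ((r:ℕ) + 1) m with h2 | h2
  · rw [Nat.mod_eq_of_lt h2] at h1; omega
  · have h3 : (r:ℕ) + 1 = m := by omega
    rw [h3, Nat.mod_self] at h1; omega

lemma sum_all (v : Fin m → Bool) (r : Fin m) :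
    ∑ l : Fin m, (2:ℤ) ^ KK.cnt v univ r (!(KK.sg v r l))
      = (KK.cnt v univ r true : ℤ) * 2 ^ KK.cnt v univ r false
        + (KK.cnt v univ r false : ℤ) * 2 ^ KK.cnt v univ r true := by
  classical
  have h1 : ∀ l : Fin m, (2:ℤ) ^ KK.cnt v univ r (!(KK.sg v r l))
      = (if sg v r l = true then (2:ℤ) ^ KK.cnt v univ r false else 0)
        + (if sg v r l = false then (2:ℤ) ^ KK.cnt v univ r true else 0) := by
    intro l
    rw [sg_eq]
    cases sg v r l <;> simp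
  rw [Finset.sum_congr rfl (fun l _ => h1 l), Finset.sum_add_distrib, ← Finset.sum_filter,
    ← Finset.sum_filter, Finset.sum_const, Finset.sum_const, cnt_univ, cnt_univ]
  simp only [nsmul_eq_mul]

lemma MT_eq [NeZero m] (hm : 2 ≤ m) (v : Fin m → Bool)
    (h : ∀ r : Fin m, 1 ≤ lev v ((r:ℕ) + 1) ∧ lev v ((r:ℕ) + 1) + 1 ≤ m) :
    MT v = 3 * ∑ i : Fin m, T m (hh v i) := by
  classical
  have w := walk_of v h
  rw [← tau_sum v h]
  have h1 := mt_sum_walk w 1
  have h2 := sum_shift_any m (tau m (ex v) (lev v)) (tau_periodic w) 1 0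
  rw [h2] at h1
  simp only [zero_add] at h1
  rw [← h1]
  rw [← Fin.sum_univ_eq_sum_range (fun k : ℕ => mt m (ex v) (lev v) (1 + k)) m]
  unfold MT
  apply Finset.sum_congr rfl
  intro r _
  have ht : KK.cnt v univ r true = lev v ((r:ℕ) + 1) := by rw [cnt_univ, ← lev_pos]
  have hf : KK.cnt v univ r false = m - lev v ((r:ℕ) + 1) := by rw [cnt_univ, card_false, ← lev_pos]
  have hbd := h r
  have hne := fin_ne_succ hm r
  have hfilt : univ.filter (fun l : Fin m => l ≠ r ∧ l ≠ r + 1) = (univ.erase r).erase (r + 1) := by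
    ext l
    simp only [Finset.mem_filter, Finset.mem_univ, true_and, Finset.mem_erase, and_true]
    tauto
  have hs1 := Finset.add_sum_erase (univ : Finset (Fin m))
    (fun l => (2:ℤ) ^ KK.cnt v univ r (!(KK.sg v r l))) (Finset.mem_univ r)
  have hs2 := Finset.add_sum_erase ((univ : Finset (Fin m)).erase r)
    (fun l => (2:ℤ) ^ KK.cnt v univ r (!(KK.sg v r l)))
    (show r + 1 ∈ (univ : Finset (Fin m)).erase r by simp [hne])
  rw [sum_all v r] at hs1
  rw [hfilt, cnt_erase, cnt_erase]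
  have e1 : KK.sg v r r = !(ex v ((r:ℕ) + 1 - 1)) := by
    rw [sg_eq, sg_ex, if_pos le_rfl, ex_anti, show ((r:ℕ):ℤ) + 1 - 1 = (r:ℕ) by ring]
  have e2 : KK.sg v r (r + 1) = ex v ((r:ℕ) + 1) := ex_succ v r hm
  have e2' : sg v r (r + 1) = ex v ((r:ℕ) + 1) := ex_succ v r hm
  simp only [e1, e2, Bool.not_not] at hs1 hs2
  rw [e2']
  unfold mt
  rw [show (1:ℤ) + ((r:ℕ):ℤ) = (r:ℕ) + 1 by ring]
  have hcast : ((m - lev v (((r:ℕ):ℤ) + 1) : ℕ) : ℤ) = (m:ℤ) - lev v (((r:ℕ):ℤ) + 1) := by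
    rw [Nat.cast_sub (by omega)]
  cases ha : ex v (((r:ℕ):ℤ) + 1 - 1) <;> cases hb : ex v (((r:ℕ):ℤ) + 1) <;>
    simp only [ha, hb, ht, hf, hcast, Bool.not_true, Bool.not_false, Bool.false_eq_true, reduceCtorEq,
      if_true, if_false, Nat.sub_zero] at hs1 hs2 ⊢ <;> linarith

/-- INEQ0, the form consumed by PAIR0. -/
theorem ineq0_MT [NeZero m] (hm : 8 ≤ m) (v : Fin m → Bool)
    (hpos : ∀ r : Fin m, 1 ≤ KK.cnt v univ r true ∧ 1 ≤ KK.cnt v univ r false) :
    0 ≤ ((m:ℤ) - 1) * MT v - LT v - OT v ∨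
    (((m:ℤ) - 1) * MT v - LT v - OT v = -18 * ((m:ℤ) - 1) ∧
      ∃ l1 l2 : Fin m, l1 ≠ l2 ∧ ∀ l, (l = l1 ∨ l = l2) →
      (∃ r s, ∀ j, j ≠ l → KK.sg v r j = s) ∧
      (∃ i, i ≠ l ∧ ∀ j, j ≠ l → j ≠ i → KK.sg v j i ≠ v j)) := by
  have h : ∀ r : Fin m, 1 ≤ lev v ((r:ℕ) + 1) ∧ lev v ((r:ℕ) + 1) + 1 ≤ m := by
    intro r
    have h1 := hpos r
    rw [cnt_univ, cnt_univ, card_false, ← lev_pos] at h1
    omega
  have hlv : ∀ r : Fin m, lv v r = lev v ((r:ℕ) + 1) := by
    intro r; unfold lv; rw [cnt_univ, lev_pos]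
  have hF : ((m:ℤ) - 1) * MT v - LT v - OT v = FF v := by
    rw [MT_eq (by omega) v h]
    have hL : LT v = ∑ r : Fin m, if og v r then H m (AA v r) else 0 := by
      unfold LT
      apply Finset.sum_congr rfl
      intro r _
      have hH : H m (AA v r) = H m (lv v r) := by
        rw [hlv]
        rcases AA_cases v r with h1 | h1
        · rw [h1]
        · rw [h1, H_symm m _ (by have := (h r).2; omega)]
      rw [hH]
      rfl
    have hO : OT v = ∑ r : Fin m, if og v (r - 1) ∧ og v r ∧ og v (r + 1) then OO m (AA v (r + 1)) else 0 := by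
      unfold OT
      apply Finset.sum_congr rfl
      intro r _
      have hH : OO m (AA v (r + 1)) = OO m (lv v (r + 1)) := by
        rw [hlv]
        rcases AA_cases v (r + 1) with h1 | h1
        · rw [h1]
        · rw [h1, OO_symm m _ (by have := (h (r + 1)).2; omega)]
      rw [hH]
      rfl
    rw [hL, hO]
    unfold FF
    have e1 : 3 * ((m:ℤ) - 1) * (∑ i : Fin m, ((m:ℤ) - 2 - hh v i) * 2 ^ hh v i)
        = ((m:ℤ) - 1) * (3 * ∑ i : Fin m, T m (hh v i)) := by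
      unfold T; ring
    rw [e1]
    rfl
  rw [hF]
  exact ineq0 hm v hpos

end KALD
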