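import Pool.Agent.KALD.Num

namespace KALD

open Finset

/-- the exceptional pattern starting at g -/
def Exc (m : ℕ) (v : ℤ → Bool) (g : ℤ) : Prop :=
  v g = true ∧ v (g + 1) = false ∧ ∀ j : ℕ, 2 ≤ j → j < m → v (g + j) = true

lemma exc_tail {m : ℕ} {v : ℤ → Bool} {e : ℤ → ℕ} (w : Walk m v e) (g : ℤ) (hx : Exc m v g)
    (n : ℕ) (hn : 3 + n ≤ m) :
    ∑ j ∈ range n, f m v e (g + ((3 + j : ℕ) : ℤ))
      = 3 * ((m:ℤ) - 1) * (G m (e (g + 3)) - G m (e (g + 3 + n))) := by
  induction n with
  | zero => simp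
  | succ n ih =>
    rw [Finset.sum_range_succ, ih (by omega)]
    have h1 := hx.2.2 (3 + n) (by omega) (by omega)
    have h2 := hx.2.2 (2 + n) (by omega) (by omega)
    have hd := w.down _ h1
    have e1 : g + ((3 + n : ℕ) : ℤ) = g + 3 + n := by push_cast; ring
    have e2 : g + ((2 + n : ℕ) : ℤ) = g + 3 + n - 1 := by push_cast; ring
    have e3 : g + 3 + ((n + 1 : ℕ) : ℤ) = g + 3 + n + 1 := by push_cast; ring
    rw [e1] at h1 hd ⊢
    rw [e2] at h2
    rw [e3]
    have hT := T_eq m (e (g + 3 + n + 1))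
    rw [← hd] at hT
    unfold f
    simp only [h1, h2, if_true, ne_eq, not_true_eq_false, if_false, false_and, and_false]
    rw [hT]
    ring

lemma exc_val {m : ℕ} (hm : 6 ≤ m) {v : ℤ → Bool} {e : ℤ → ℕ} (w : Walk m v e) (g : ℤ)
    (hx : Exc m v g) : Fs m v e = -18 * ((m:ℤ) - 1) := by
  obtain ⟨x0, x1, x2⟩ := hx
  have y2 := x2 2 (by norm_num) (by omega)
  have y3 := x2 3 (by norm_num) (by omega)
  have ym1 := x2 (m - 1) (by omega) (by omega)
  have ym2 := x2 (m - 2) (by omega) (by omega)
  have c1 : ((m - 1 : ℕ) : ℤ) = (m:ℤ) - 1 := by push_cast [Nat.cast_sub (show 1 ≤ m by omega)]; ring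
  have c2 : ((m - 2 : ℕ) : ℤ) = (m:ℤ) - 2 := by push_cast [Nat.cast_sub (show 2 ≤ m by omega)]; ring
  push_cast at y2 y3
  have z1 : v (g - 1) = false := by
    have := w.anti (g - 1)
    rw [show g - 1 + (m:ℤ) = g + ((m - 1 : ℕ) : ℤ) by rw [c1]; ring, ym1] at this
    clear * - this
    revert this
    cases v (g - 1) <;> simp
  have z2 : v (g - 2) = false := by
    have := w.anti (g - 2)
    rw [show g - 2 + (m:ℤ) = g + ((m - 2 : ℕ) : ℤ) by rw [c2]; ring, ym2] at this
    clear * - this
    revert this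
    cases v (g - 2) <;> simp
  have hups : ups v g m = 1 := by
    unfold ups
    rw [Finset.card_eq_one]
    refine ⟨1, ?_⟩
    ext k
    simp only [Finset.mem_filter, Finset.mem_range, Finset.mem_singleton]
    constructor
    · rintro ⟨hk, hv⟩
      by_contra hne
      rcases (show k = 0 ∨ 2 ≤ k by omega) with rfl | h
      · simp [x0] at hv
      · rw [x2 k h hk] at hv; simp at hv
    · rintro rfl
      exact ⟨by omega, by exact_mod_cast x1⟩
  have E0 : e g = m - 1 := by have := ups_max w g; omega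
  have E1 : e (g + 1) = m - 2 := by have := w.down g x0; omega
  have E2 : e (g + 2) = m - 1 := by
    have := w.up (g + 1) x1
    rw [show g + 1 + 1 = g + 2 by ring] at this; omega
  have E3 : e (g + 3) = m - 2 := by
    have := w.down (g + 2) y2
    rw [show g + 2 + 1 = g + 3 by ring] at this; omega
  have Em : e (g + m) = 1 := by have := w.sum g; omega
  rw [Fs_eq w g]
  obtain ⟨n, rfl⟩ : ∃ n, m = 3 + n := ⟨m - 3, by omega⟩
  rw [Finset.sum_range_add]
  have ht := exc_tail w g ⟨x0, x1, x2⟩ n le_rfl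
  rw [show g + 3 + (n:ℤ) = g + ((3 + n : ℕ) : ℤ) by push_cast; ring, Em, E3] at ht
  have hn : 3 ≤ n := by omega
  rw [ht]
  simp only [Finset.sum_range_succ, Finset.sum_range_zero, zero_add, Nat.cast_zero, add_zero,
    Nat.cast_one, Nat.cast_ofNat]
  unfold f
  rw [show g + 1 - 1 = g by ring, show g + 1 - 2 = g - 1 by ring, show g + 1 + 1 = g + 2 by ring,
    show g + 2 - 1 = g + 1 by ring, show g + 2 - 2 = g by ring, show g + 2 + 1 = g + 3 by ring]
  rw [x0, x1, y2, y3, z1, z2, E0, E1, E2, E3]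
  obtain ⟨q, rfl⟩ : ∃ q, n = q + 3 := ⟨n - 3, by omega⟩
  have a1 : 3 + (q + 3) - 1 = q + 5 := by omega
  have a2 : 3 + (q + 3) - 2 = q + 4 := by omega
  have a3 : 3 + (q + 3) = q + 6 := by omega
  rw [a1, a2, a3]
  have hW1 : W (q + 5) 1 = 2 ^ (q + 5) + 1 := by
    unfold W
    have p : (1:ℤ) ≤ 2 ^ q := one_le_pow₀ (by norm_num)
    rw [show q + 5 - 1 = q + 4 by omega, max_eq_left]
    · norm_num
    · norm_num [pow_add]; linarith
  have hW2 : W (q + 4) 2 = 2 ^ (q + 4) + 2 := by
    unfold W
    have p : (1:ℤ) ≤ 2 ^ q := one_le_pow₀ (by norm_num)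
    rw [show q + 4 - 1 = q + 3 by omega, max_eq_left]
    · norm_num
    · norm_num [pow_add]; linarith
  have hH1 : H (q + 6) (q + 5) = ((q:ℤ) + 5) * (2 ^ (q + 5) + 1) := by
    unfold H
    rw [show q + 6 - (q + 5) = 1 by omega, hW1]; push_cast; ring
  have hH2 : H (q + 6) (q + 4) = ((q:ℤ) + 4) * 2 * (2 ^ (q + 4) + 2) := by
    unfold H
    rw [show q + 6 - (q + 4) = 2 by omega, hW2]; push_cast; ring
  have hO : OO (q + 6) (q + 5) = 2 ^ (q + 5) + 4 := by
    unfold OO
    rw [show q + 6 - (q + 5) = 1 by omega, max_eq_left (by omega),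
      show q + 6 - (q + 5) + 1 = 2 by omega]
    norm_num
  have hT1 : T (q + 6) (q + 4) = 0 := by unfold T; push_cast; ring
  have hT2 : T (q + 6) (q + 5 - (q + 4)) = ((q:ℤ) + 3) * 2 := by
    rw [show q + 5 - (q + 4) = 1 by omega]; unfold T; push_cast; ring
  have hG1 : G (q + 6) (q + 4) = 2 * 2 ^ (q + 4) := by unfold G; push_cast; ring
  have hG2 : G (q + 6) 1 = ((q:ℤ) + 5) * 2 := by unfold G; push_cast; ring
  simp only [if_true, Bool.false_eq_true, if_false, ne_eq, not_true_eq_false, not_false_eq_true,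
    reduceCtorEq, and_true, true_and, and_self, and_false, false_and, hT1, hT2, hG1, hG2, hO,
    hH1, hH2]
  push_cast
  ring

/-- a = 1 numeric inequality -/
lemma top_one (m : ℕ) (hm : 8 ≤ m) :
    0 ≤ 3 * ((m:ℤ) - 1) * (G m (m - 1) - G m 1) - H m (m - 1) - OO m (m - 1 - 1)
      - (1:ℤ) * max 0 (2 ^ (m - 1 - 2) * (4 * ((m:ℤ) - 1) + (2:ℕ) - 3 * (2:ℕ) ^ 2 + 3)) := by
  obtain ⟨q, rfl⟩ : ∃ q, m = q + 8 := ⟨m - 8, by omega⟩
  have p : (1:ℤ) ≤ 2 ^ q := one_le_pow₀ (by norm_num)
  have pq : (q:ℤ) + 1 ≤ 2 ^ q := by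
    have : q + 1 ≤ 2 ^ q := Nat.lt_two_pow_self
    exact_mod_cast this
  have hW1 : W (q + 7) 1 = 2 ^ (q + 7) + 1 := by
    unfold W
    rw [show q + 7 - 1 = q + 6 by omega, max_eq_left]
    · norm_num
    · norm_num [pow_add]; linarith
  have hH1 : H (q + 8) (q + 7) = ((q:ℤ) + 7) * (2 ^ (q + 7) + 1) := by
    unfold H
    rw [show q + 8 - (q + 7) = 1 by omega, hW1]; push_cast; ring
  have hO : OO (q + 8) (q + 6) = 2 ^ (q + 6) + 8 := by
    unfold OO
    rw [show q + 8 - (q + 6) = 2 by omega, max_eq_left (by omega),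
      show q + 8 - (q + 6) + 1 = 3 by omega]
    norm_num
  have hG1 : G (q + 8) (q + 7) = 2 ^ (q + 7) := by unfold G; push_cast; ring
  have hG2 : G (q + 8) 1 = ((q:ℤ) + 7) * 2 := by unfold G; push_cast; ring
  rw [show q + 8 - 1 = q + 7 by omega, show q + 7 - 1 = q + 6 by omega,
    show q + 7 - 2 = q + 5 by omega, hG1, hG2, hH1, hO]
  push_cast
  rw [max_eq_right]
  · have h1 : ((q:ℤ) + 1) * 4 ≤ 2 ^ q * 4 := by linarith
    rw [pow_add, pow_add, pow_add]
    norm_num
    nlinarith [mul_nonneg (show (0:ℤ) ≤ q by positivity) (sub_nonneg.2 pq)]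
  · apply mul_nonneg (by positivity)
    have : (0:ℤ) ≤ q := by positivity
    nlinarith

/-- Theorem D for abstract walks. -/
theorem main {m : ℕ} (hm : 8 ≤ m) {v : ℤ → Bool} {e : ℤ → ℕ} (w : Walk m v e) :
    0 ≤ Fs m v e ∨ (Fs m v e = -18 * ((m:ℤ) - 1) ∧ ∃ g, Exc m v g) := by
  -- a global maximum
  obtain ⟨g, hg⟩ : ∃ g, ∀ g', e g' ≤ e g := by
    have hb : BddAbove (Set.range e) := ⟨m, by rintro _ ⟨g, rfl⟩; exact w.le g⟩
    have hne : (Set.range e).Nonempty := ⟨e 0, 0, rfl⟩
    obtain ⟨g, hg⟩ := Nat.sSup_mem hne hb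
    exact ⟨g, fun g' => by rw [hg]; exact le_csSup hb ⟨g', rfl⟩⟩
  have h0 : v g = true := by
    cases h : v g
    · have := w.up g h; have := hg (g + 1); omega
    · rfl
  have h1 : v (g - 1) = false := by
    cases h : v (g - 1)
    · rfl
    · have h2 := w.down (g - 1) h
      rw [show g - 1 + 1 = g by ring] at h2
      have := hg (g - 1); omega
  have hlow : ∀ g', m - e g ≤ e g' := by
    intro g'
    have := w.sum g'; have := hg (g' + m); omega
  have hlt := w.lt g
  have hups := ups_max w g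
  have hd := w.down g h0
  have hl1 := hlow (g + 1)
  set a := m - e g with ha
  have hea : e g = m - a := by omega
  have hua : ups v g m = a := by omega
  rcases (show a = 1 ∨ 2 ≤ a by omega) with h | h
  · -- a = 1
    by_cases hall : ∀ k : ℕ, k < m → v (g + k) = false → 2 ≤ e (g + k) ∧ e (g + k) + 3 ≤ m
    · left
      have hb := main_bound_K (by omega) w g h0 h1
        (max 0 (2 ^ (m - 1 - 2) * (4 * ((m:ℤ) - 1) + (2:ℕ) - 3 * (2:ℕ) ^ 2 + 3)))
        (fun k hk hv => cc_le m 2 _ (by omega) le_rfl (hall k hk hv).1 (by have := (hall k hk hv).2; omega))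
      rw [hua, h, hea, h] at hb
      refine le_trans ?_ hb
      have := top_one m hm
      rw [show m - (m - 1) = 1 by omega]
      exact_mod_cast this
    · right
      push Not at hall
      obtain ⟨k, hk, hvk, hek⟩ := hall
      have huniq : ∀ j : ℕ, j < m → j ≠ k → v (g + j) = true := by
        intro j hj hjk
        by_contra hc
        have hc' : v (g + j) = false := by simpa using hc
        have : 1 < ups v g m := by
          unfold ups
          rw [Finset.one_lt_card]
          exact ⟨j, by simp [hj, hc'], k, by simp [hk, hvk], hjk⟩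
        omega
      have hlev : e (g + k) + k = e g := by
        have h2 := level_ups w g k
        have : ups v g k = 0 := by
          unfold ups
          rw [Finset.card_eq_zero, Finset.filter_eq_empty_iff]
          intro j hj
          rw [Finset.mem_range] at hj
          rw [huniq j (by omega) (by omega)]
          simp
        omega
      have hk0 : k ≠ 0 := by
        rintro rfl
        simp [h0] at hvk
      have hkm : k ≠ m - 1 := by
        rintro rfl
        have := w.anti (g - 1)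
        rw [show g - 1 + (m:ℤ) = g + ((m - 1 : ℕ) : ℤ) by
          push_cast [Nat.cast_sub (show 1 ≤ m by omega)]; ring, hvk, h1] at this
        simp at this
      have hex : ∃ g', Exc m v g' := by
        rcases (show k = 1 ∨ k = m - 2 by
          by_cases h2 : 2 ≤ e (g + k)
          · have := hek h2; omega
          · omega) with h2 | h2
        · subst h2
          exact ⟨g, h0, by exact_mod_cast hvk, fun j hj hjm => huniq j hjm (by omega)⟩
        · refine ⟨g - 2, ?_, ?_, ?_⟩
          · have := w.anti (g - 2)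
            rw [show g - 2 + (m:ℤ) = g + (k : ℤ) by
              rw [h2]; push_cast [Nat.cast_sub (show 2 ≤ m by omega)]; ring, hvk] at this
            clear * - this
            revert this
            cases v (g - 2) <;> simp
          · rw [show g - 2 + 1 = g - 1 by ring]; exact h1
          · intro j hj hjm
            have := huniq (j - 2) (by omega) (by omega)
            rw [show g + ((j - 2 : ℕ) : ℤ) = g - 2 + j by
              push_cast [Nat.cast_sub hj]; ring] at this
            exact this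
      obtain ⟨g', hg'⟩ := hex
      exact ⟨exc_val (by omega) w g' hg', g', hg'⟩
  · left
    have hb := main_bound_K (by omega) w g h0 h1
      (max 0 (2 ^ (m - 1 - a) * (4 * ((m:ℤ) - 1) + a - 3 * a ^ 2 + 3)))
      (fun k hk hv => cc_le m a _ (by omega) h (hlow _) (by
        have h2 := w.up _ hv; have h3 := hg (g + k + 1); omega))
    rw [hua, hea] at hb
    refine le_trans ?_ hb
    have := top_ge m a hm h (by omega)
    rw [show m - (m - a) = a by omega]
    exact this

end KALD
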