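import Pool.Agent.KALD.Core

namespace KALD

open Finset

/-- right hand side polynomial -/
def R (n a : ℤ) : ℤ := (n + a) * (6 * n + 13 * a - 6) + 8

lemma R_step (n a : ℤ) (hn : 1 ≤ n) (ha : 2 ≤ a) : R (n + 1) a ≤ 2 * R n a := by
  unfold R; nlinarith [mul_nonneg (sub_nonneg.2 hn) (sub_nonneg.2 ha), sq_nonneg n, sq_nonneg a]

lemma grow (a : ℤ) (P : ℤ) (ha : 2 ≤ a) (n0 : ℕ) (h1 : 1 ≤ n0) (hb : R n0 a ≤ 2 ^ n0 * P) (n : ℕ)
    (hn : n0 ≤ n) : R n a ≤ 2 ^ n * P := by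
  induction n, hn using Nat.le_induction with
  | base => exact hb
  | succ n hn ih =>
    have h := R_step n a (by exact_mod_cast (show 1 ≤ n by omega)) ha
    push_cast
    rw [pow_succ]
    nlinarith

lemma num2 (n a : ℕ) (ha : 2 ≤ a) (hn : 1 ≤ n) (hm : 8 ≤ n + 2 * a) :
    R n a ≤ 2 ^ n * ((a:ℤ) * (3 * a ^ 2 + a - 5) - 1) := by
  rcases (show a = 2 ∨ a = 3 ∨ 4 ≤ a by omega) with rfl | rfl | h
  · exact grow 2 _ (by norm_num) 4 (by norm_num) (by norm_num [R]) n (by omega)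
  · exact grow 3 _ (by norm_num) 2 (by norm_num) (by norm_num [R]) n (by omega)
  · refine grow a _ (by exact_mod_cast ha) 1 (by norm_num) ?_ n (by omega)
    have h' : (4:ℤ) ≤ a := by exact_mod_cast h
    unfold R
    push_cast
    nlinarith [mul_nonneg (sub_nonneg.2 h') (sub_nonneg.2 h'), sq_nonneg ((a:ℤ) - 4),
      mul_nonneg (sub_nonneg.2 h') (mul_nonneg (sub_nonneg.2 h') (sub_nonneg.2 h'))]

lemma num1 (n a : ℕ) (ha : 2 ≤ a) (hn : 1 ≤ n) (hm : 8 ≤ n + 2 * a) :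
    R n a ≤ 2 ^ n * (2 * (a:ℤ) * (2 * n + 5 * a - 3) - 1) := by
  have key : ∀ n0 : ℕ, n0 ≤ n → 1 ≤ n0 → R n0 a ≤ 2 ^ n0 * (2 * (a:ℤ) * (2 * n0 + 5 * a - 3) - 1) →
      R n a ≤ 2 ^ n * (2 * (a:ℤ) * (2 * n + 5 * a - 3) - 1) := by
    intro n0 hn0 h1 hb
    refine le_trans (grow a _ (by exact_mod_cast ha) n0 h1 hb n hn0) ?_
    have : (n0:ℤ) ≤ n := by exact_mod_cast hn0
    have ha' : (0:ℤ) ≤ a := by positivity
    apply mul_le_mul_of_nonneg_left _ (by positivity)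
    nlinarith
  rcases (show a = 2 ∨ a = 3 ∨ 4 ≤ a by omega) with rfl | rfl | h
  · exact key 4 (by omega) (by norm_num) (by norm_num [R])
  · exact key 2 (by omega) (by norm_num) (by norm_num [R])
  · refine key 1 (by omega) (by norm_num) ?_
    have h' : (4:ℤ) ≤ a := by exact_mod_cast h
    unfold R
    push_cast
    nlinarith [mul_nonneg (sub_nonneg.2 h') (sub_nonneg.2 h')]

/-- the value at the top beats a up steps, a >= 2 -/
lemma top_ge (m a : ℕ) (hm : 8 ≤ m) (ha : 2 ≤ a) (ham : 2 * a + 1 ≤ m) :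
    0 ≤ 3 * ((m:ℤ) - 1) * (G m (m - a) - G m a) - H m (m - a) - OO m (m - a - 1)
      - (a:ℤ) * max 0 (2 ^ (m - 1 - a) * (4 * ((m:ℤ) - 1) + a - 3 * a ^ 2 + 3)) := by
  obtain ⟨n, hn⟩ : ∃ n, m = n + 2 * a := ⟨m - 2 * a, by omega⟩
  obtain ⟨b, rfl⟩ : ∃ b, a = b + 1 := ⟨a - 1, by omega⟩
  subst hn
  have hn1 : 1 ≤ n := by omega
  have N1 := num1 n (b + 1) ha hn1 hm
  have N2 := num2 n (b + 1) ha hn1 hm
  have pb : (0:ℤ) < 2 ^ b := by positivity
  have pn : (1:ℤ) ≤ 2 ^ n := one_le_pow₀ (by norm_num)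
  have e1 : n + 2 * (b + 1) - (b + 1) = n + b + 1 := by omega
  have e2 : n + 2 * (b + 1) - (n + b + 1) = b + 1 := by omega
  have hG1 : G (n + 2 * (b + 1)) (n + b + 1) = ((b:ℤ) + 1) * (2 * (2 ^ n * 2 ^ b)) := by
    unfold G; push_cast; rw [pow_succ, pow_add]; ring
  have hG2 : G (n + 2 * (b + 1)) (b + 1) = ((n:ℤ) + b + 1) * (2 * 2 ^ b) := by
    unfold G; push_cast; rw [pow_succ]; ring
  have hW : W (n + b + 1) (b + 1) ≤ 2 * (2 ^ n * 2 ^ b) + 2 ^ b := by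
    unfold W
    rw [show n + b + 1 - 1 = n + b by omega, show b + 1 - 1 = b by omega, max_le_iff]
    constructor
    · rw [pow_succ, pow_add]; linarith
    · rw [pow_succ, pow_add]; nlinarith
  have hH : H (n + 2 * (b + 1)) (n + b + 1) ≤ ((n:ℤ) + b + 1) * (b + 1) * (2 * (2 ^ n * 2 ^ b) + 2 ^ b) := by
    unfold H
    rw [e2]
    have : ((n + 2 * (b + 1) : ℕ) : ℤ) - ((n + b + 1 : ℕ) : ℤ) = b + 1 := by push_cast; ring
    rw [this]
    push_cast
    exact mul_le_mul_of_nonneg_left hW (by positivity)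
  have hO : OO (n + 2 * (b + 1)) (n + b) ≤ 2 ^ n * 2 ^ b + 8 * 2 ^ b := by
    unfold OO
    rw [show n + 2 * (b + 1) - (n + b) = b + 2 by omega]
    rcases hn1.eq_or_lt with h | h
    · rw [← h, max_eq_right (by omega), show 1 + 2 * (b + 1) - (b + 2) + 1 = b + 2 by omega, pow_add]
      nlinarith
    · rw [max_eq_left (by omega), show n + 2 * (b + 1) - (n + b) + 1 = b + 3 by omega, pow_add,
        pow_add]
      nlinarith
  rw [e1, show n + b + 1 - 1 = n + b by omega]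
  rw [hG1, hG2, show n + 2 * (b + 1) - 1 - (b + 1) = n + b by omega]
  have hmz : ((n + 2 * (b + 1) : ℕ) : ℤ) = n + 2 * (b + 1) := by push_cast; ring
  rw [hmz]
  unfold R at N1 N2
  push_cast at N1 N2 ⊢
  have M1 := mul_le_mul_of_nonneg_left N1 pb.le
  have M2 := mul_le_mul_of_nonneg_left N2 pb.le
  rcases le_total ((2:ℤ) ^ (n + b) * (4 * ((n:ℤ) + 2 * (b + 1) - 1) + (b + 1) - 3 * (b + 1) ^ 2 + 3)) 0
    with h | h
  · rw [max_eq_left h]
    nlinarith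
  · rw [max_eq_right h, pow_add]
    nlinarith

end KALD
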