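import Pool.Agent.KALD.Ineq0

namespace KALD

open Finset

/-- abstract number of nonspanning subsets -/
def nsb {m : ℕ} (b : Fin m → Fin m → Bool) (S : Finset (Fin m)) : ℤ :=
  1 + ∑ i ∈ S, (2:ℤ) ^ (S.filter (fun j => b i j = true)).card

theorem nsb_sum {m : ℕ} (b : Fin m → Fin m → Bool) (hb : ∀ i, b i i = false) :
    ∑ l : Fin m, (2 * nsb b (univ.erase l) - nsb b univ - 1)
      = ∑ i : Fin m, ((m:ℤ) - 2 - (univ.filter (fun j => b i j = true)).card)
          * 2 ^ (univ.filter (fun j => b i j = true)).card := by
  classical
  have key : ∀ l : Fin m, 2 * nsb b (univ.erase l) - nsb b univ - 1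
      = ∑ i : Fin m, ((2:ℤ) ^ (univ.filter (fun j => b i j = true)).card
          - (if b i l = true then (2:ℤ) ^ (univ.filter (fun j => b i j = true)).card else 0)
          - (if i = l then 2 * (2:ℤ) ^ (univ.filter (fun j => b i j = true)).card else 0)) := by
    intro l
    unfold nsb
    have h1 : ∀ i ∈ univ.erase l, (2:ℤ) * 2 ^ ((univ.erase l).filter (fun j => b i j = true)).card
        = 2 ^ (univ.filter (fun j => b i j = true)).card
          + ((2:ℤ) ^ (univ.filter (fun j => b i j = true)).card
          - (if b i l = true then (2:ℤ) ^ (univ.filter (fun j => b i j = true)).card else 0)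
          - (if i = l then 2 * (2:ℤ) ^ (univ.filter (fun j => b i j = true)).card else 0)) := by
      intro i hi
      have hil : i ≠ l := (Finset.mem_erase.1 hi).1
      rw [if_neg hil, Finset.filter_erase]
      by_cases hbl : b i l = true
      · have hmem : l ∈ univ.filter (fun j => b i j = true) := by simp [hbl]
        rw [Finset.card_erase_of_mem hmem, if_pos hbl]
        have hpos : 0 < (univ.filter (fun j => b i j = true)).card := Finset.card_pos.2 ⟨l, hmem⟩
        obtain ⟨c, hc⟩ : ∃ c, (univ.filter (fun j => b i j = true)).card = c + 1 :=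
          ⟨(univ.filter (fun j => b i j = true)).card - 1, by omega⟩
        rw [hc, Nat.add_sub_cancel, pow_succ]
        ring
      · have hmem : l ∉ univ.filter (fun j => b i j = true) := by simp [hbl]
        rw [Finset.erase_eq_of_notMem hmem, if_neg hbl]
        ring
    have h2 : 2 * ∑ i ∈ univ.erase l, (2:ℤ) ^ ((univ.erase l).filter (fun j => b i j = true)).card
        = ∑ i ∈ univ.erase l, (2 ^ (univ.filter (fun j => b i j = true)).card
          + ((2:ℤ) ^ (univ.filter (fun j => b i j = true)).card
          - (if b i l = true then (2:ℤ) ^ (univ.filter (fun j => b i j = true)).card else 0)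
          - (if i = l then 2 * (2:ℤ) ^ (univ.filter (fun j => b i j = true)).card else 0))) := by
      rw [Finset.mul_sum]
      exact Finset.sum_congr rfl h1
    have h3 := Finset.add_sum_erase (univ : Finset (Fin m))
      (fun i => (2:ℤ) ^ (univ.filter (fun j => b i j = true)).card) (Finset.mem_univ l)
    have h4 := Finset.add_sum_erase (univ : Finset (Fin m))
      (fun i => ((2:ℤ) ^ (univ.filter (fun j => b i j = true)).card
          - (if b i l = true then (2:ℤ) ^ (univ.filter (fun j => b i j = true)).card else 0)
          - (if i = l then 2 * (2:ℤ) ^ (univ.filter (fun j => b i j = true)).card else 0)))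
      (Finset.mem_univ l)
    rw [Finset.sum_add_distrib] at h2
    have h5 : b l l = false := hb l
    simp only [h5, Bool.false_eq_true, if_false, if_true] at h3 h4
    linarith
  rw [Finset.sum_congr rfl (fun l _ => key l), Finset.sum_comm]
  apply Finset.sum_congr rfl
  intro i _
  rw [Finset.sum_sub_distrib, Finset.sum_sub_distrib, Finset.sum_ite_eq]
  rw [Finset.sum_const, ← Finset.sum_filter, Finset.sum_const]
  simp only [Finset.card_univ, Fintype.card_fin, Finset.mem_univ, if_true, nsmul_eq_mul]
  ring

end KALD
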